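import Mathlib
import Pool.Agent.H336R4.PF.Defs
import Pool.Agent.H177R3.TaskPFV
import Pool.Agent.H180R3.PFT3

/-!
# POLEORDER, task AR: a periodic element of the Selberg class with `a q ≠ 0` is divisible by `ζ`
-/

set_option autoImplicit false

namespace Pool.Agent.H600R3.PO

open Pool.Agent.H336R4.PF
open Finset Filter Topology LSeries

lemma ram_absc {a : ℕ → ℂ} (h : Ram a) : abscissaOfAbsConv a ≤ (1 : ℝ) := by
  refine abscissaOfAbsConv_le_of_forall_lt_LSeriesSummable fun y hy => ?_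
  exact Pool.Agent.H177R3.PFV.ram_summable h (by simpa using hy)

/-- the recursion `a(n) log n = ∑ a(n/e) b(e) log e` -/
lemma rec_eq {a b : ℕ → ℂ} (ha : abscissaOfAbsConv a ≤ (1 : ℝ)) {θ C : ℝ} (hθ : θ < 1 / 2)
    (hb : ∀ n : ℕ, 1 ≤ n → ‖b n‖ ≤ C * (n : ℝ) ^ θ)
    (hexp : ∀ s : ℂ, 1 < s.re → LSeries a s = Complex.exp (LSeries b s)) {n : ℕ} (hn : n ≠ 0) :
    a n * (Real.log n : ℂ) = ∑ e ∈ n.divisors, a (n / e) * (b e * (Real.log e : ℂ)) := by
  have key := Pool.Agent.H180R3.PFT.log_deriv_coeff ha hθ hb hexp hn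
  rw [convolution_def] at key
  change logMul a n = ∑ p ∈ n.divisorsAntidiagonal, a p.1 * logMul b p.2 at key
  rw [Nat.sum_divisorsAntidiagonal' (fun x y => a x * logMul b y)] at key
  simp only [logMul] at key
  rw [Complex.ofReal_log (Nat.cast_nonneg _), Complex.ofReal_natCast, mul_comm, key]
  refine Finset.sum_congr rfl fun e _ => ?_
  rw [Complex.ofReal_log (Nat.cast_nonneg _), Complex.ofReal_natCast]
  ring

/-- an element of the Selberg class has multiplicative coefficients -/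
theorem mult {a : ℕ → ℂ} (h1 : a 1 = 1) (hram : Ram a) (he : Eul a) {m n : ℕ}
    (hm : m ≠ 0) (hn : n ≠ 0) (hmn : m.Coprime n) : a (m * n) = a m * a n := by
  obtain ⟨b, hbp, θ, hθ, C, hb, hexp⟩ := he
  have ha := ram_absc hram
  have hb1 : b 1 = 0 := hbp 1 not_isPrimePow_one
  suffices H : ∀ N m n : ℕ, m ≠ 0 → n ≠ 0 → m.Coprime n → m * n ≤ N → a (m * n) = a m * a n from
    H (m * n) m n hm hn hmn le_rfl
  intro N
  induction N with
  | zero =>
    intro m n hm hn _ h
    exact absurd (Nat.le_zero.1 h) (Nat.mul_ne_zero hm hn)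
  | succ N ih =>
    intro m n hm hn hmn h
    by_cases hm1 : m = 1
    · rw [hm1, h1, one_mul, one_mul]
    by_cases hn1 : n = 1
    · rw [hn1, h1, mul_one, mul_one]
    have hmn0 : m * n ≠ 0 := Nat.mul_ne_zero hm hn
    have hm2 : 2 ≤ m := by omega
    have hn2 : 2 ≤ n := by omega
    have key := rec_eq ha hθ hb hexp hmn0
    have keym := rec_eq ha hθ hb hexp hm
    have keyn := rec_eq ha hθ hb hexp hn
    set t : ℕ → ℂ := fun e => a (m * n / e) * (b e * (Real.log e : ℂ)) with ht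
    have hsub : m.divisors ∪ n.divisors ⊆ (m * n).divisors := by
      intro e he
      rw [Finset.mem_union, Nat.mem_divisors, Nat.mem_divisors] at he
      rw [Nat.mem_divisors]
      rcases he with h | h
      · exact ⟨h.1.mul_right n, hmn0⟩
      · exact ⟨h.1.mul_left m, hmn0⟩
    have e1 : ∑ e ∈ (m * n).divisors, t e = ∑ e ∈ m.divisors ∪ n.divisors, t e := by
      refine (Finset.sum_subset hsub fun e he1 he2 => ?_).symm
      by_cases hpp : IsPrimePow e
      · exfalso
        apply he2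
        rw [Finset.mem_union, Nat.mem_divisors, Nat.mem_divisors]
        rcases (Nat.Coprime.isPrimePow_dvd_mul hmn hpp).1 (Nat.mem_divisors.1 he1).1 with h | h
        · exact Or.inl ⟨h, hm⟩
        · exact Or.inr ⟨h, hn⟩
      · simp only [ht]
        rw [hbp e hpp]
        ring
    have e2 : ∑ e ∈ m.divisors ∩ n.divisors, t e = 0 := by
      refine Finset.sum_eq_zero fun e he => ?_
      rw [Finset.mem_inter, Nat.mem_divisors, Nat.mem_divisors] at he
      have : e = 1 := Nat.eq_one_of_dvd_coprimes hmn he.1.1 he.2.1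
      simp only [ht]
      rw [this, hb1]
      ring
    have e3 : ∑ e ∈ m.divisors ∪ n.divisors, t e = ∑ e ∈ m.divisors, t e + ∑ e ∈ n.divisors, t e := by
      have := Finset.sum_union_inter (s₁ := m.divisors) (s₂ := n.divisors) (f := t)
      rw [e2, add_zero] at this
      exact this
    have e4 : ∑ e ∈ m.divisors, t e = a n * (a m * (Real.log m : ℂ)) := by
      rw [keym, Finset.mul_sum]
      refine Finset.sum_congr rfl fun e he => ?_
      simp only [ht]
      obtain ⟨hd, -⟩ := Nat.mem_divisors.1 he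
      by_cases he1 : e = 1
      · rw [he1, hb1]; ring
      · obtain ⟨f, hf⟩ := hd
        have he0 : e ≠ 0 := by rintro rfl; simp at hf; exact hm hf
        have hf0 : f ≠ 0 := by rintro rfl; simp at hf; exact hm hf
        have he2 : 2 ≤ e := by omega
        have d1 : m * n / e = f * n := by
          rw [hf, mul_assoc]
          exact Nat.mul_div_cancel_left _ (Nat.pos_of_ne_zero he0)
        have d2 : m / e = f := by
          rw [hf]
          exact Nat.mul_div_cancel_left _ (Nat.pos_of_ne_zero he0)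
        rw [d1, d2, ih f n hf0 hn (Nat.Coprime.coprime_dvd_left ⟨e, by rw [hf, mul_comm]⟩ hmn) ?_]
        · ring
        · have : 2 * (f * n) ≤ N + 1 := by
            calc 2 * (f * n) ≤ e * (f * n) := Nat.mul_le_mul_right _ he2
              _ = m * n := by rw [hf]; ring
              _ ≤ N + 1 := h
          have h3 : 1 ≤ f * n := Nat.one_le_iff_ne_zero.2 (Nat.mul_ne_zero hf0 hn)
          omega
    have e5 : ∑ e ∈ n.divisors, t e = a m * (a n * (Real.log n : ℂ)) := by
      rw [keyn, Finset.mul_sum]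
      refine Finset.sum_congr rfl fun e he => ?_
      simp only [ht]
      obtain ⟨hd, -⟩ := Nat.mem_divisors.1 he
      by_cases he1 : e = 1
      · rw [he1, hb1]; ring
      · obtain ⟨f, hf⟩ := hd
        have he0 : e ≠ 0 := by rintro rfl; simp at hf; exact hn hf
        have hf0 : f ≠ 0 := by rintro rfl; simp at hf; exact hn hf
        have he2 : 2 ≤ e := by omega
        have d1 : m * n / e = m * f := by
          rw [hf, show m * (e * f) = e * (m * f) by ring]
          exact Nat.mul_div_cancel_left _ (Nat.pos_of_ne_zero he0)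
        have d2 : n / e = f := by
          rw [hf]
          exact Nat.mul_div_cancel_left _ (Nat.pos_of_ne_zero he0)
        rw [d1, d2, ih m f hm hf0 (Nat.Coprime.coprime_dvd_right ⟨e, by rw [hf, mul_comm]⟩ hmn) ?_]
        · ring
        · have : 2 * (m * f) ≤ N + 1 := by
            calc 2 * (m * f) ≤ e * (m * f) := Nat.mul_le_mul_right _ he2
              _ = m * n := by rw [hf]; ring
              _ ≤ N + 1 := h
          have h3 : 1 ≤ m * f := Nat.one_le_iff_ne_zero.2 (Nat.mul_ne_zero hm hf0)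
          omega
    have hlog : (Real.log ((m * n : ℕ) : ℝ) : ℂ) = (Real.log m : ℂ) + (Real.log n : ℂ) := by
      rw [Nat.cast_mul, Real.log_mul (by exact_mod_cast hm) (by exact_mod_cast hn)]
      push_cast
      ring
    have hne : (Real.log ((m * n : ℕ) : ℝ) : ℂ) ≠ 0 := by
      have : 1 < ((m * n : ℕ) : ℝ) := by
        have : 2 * 2 ≤ m * n := Nat.mul_le_mul hm2 hn2
        exact_mod_cast (by omega : 1 < m * n)
      exact_mod_cast (Real.log_pos this).ne'
    have e6 : a (m * n) * (Real.log ((m * n : ℕ) : ℝ) : ℂ) =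
        a m * a n * (Real.log ((m * n : ℕ) : ℝ) : ℂ) := by
      rw [key]
      change ∑ e ∈ (m * n).divisors, t e = _
      rw [e1, e3, e4, e5, hlog]
      ring
    exact mul_right_cancel₀ hne e6

/-- periodicity, iterated -/
lemma per_mul {a : ℕ → ℂ} {q : ℕ} (hper : ∀ m : ℕ, 1 ≤ m → a (m + q) = a m) {m : ℕ} (hm : 1 ≤ m) (k : ℕ) :
    a (m + k * q) = a m := by
  induction k with
  | zero => simp
  | succ k ih =>
    rw [show m + (k + 1) * q = (m + k * q) + q by ring, hper _ (by omega), ih]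

lemma per_mod {a : ℕ → ℂ} {q : ℕ} (hper : ∀ m : ℕ, 1 ≤ m → a (m + q) = a m) {m n : ℕ}
    (hm : 1 ≤ m) (hn : 1 ≤ n) (h : m ≡ n [MOD q]) : a m = a n := by
  rcases Nat.le_total m n with hle | hle
  · have h2 := (Nat.modEq_iff_dvd' hle).1 h
    obtain ⟨k, hk⟩ := h2
    have : n = m + k * q := by rw [mul_comm]; omega
    rw [this, per_mul hper hm]
  · have h2 := (Nat.modEq_iff_dvd' hle).1 h.symm
    obtain ⟨k, hk⟩ := h2
    have : m = n + k * q := by rw [mul_comm]; omega
    rw [this, per_mul hper hn]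

lemma eq_one {a : ℕ → ℂ} (h1 : a 1 = 1) (hram : Ram a) (he : Eul a) {q : ℕ} (hq : 1 ≤ q)
    (hper : ∀ m : ℕ, 1 ≤ m → a (m + q) = a m) (haq : a q ≠ 0) {n : ℕ} (hn : 1 ≤ n)
    (hnq : n.Coprime q) : a n = 1 := by
  have e1 := mult h1 hram he (by omega : n ≠ 0) (by omega : q ≠ 0) hnq
  have e2 : a (n * q) = a q := by
    refine per_mod hper (Nat.mul_pos hn hq) hq ?_
    exact (Nat.modEq_zero_iff_dvd.2 (Dvd.intro_left n rfl)).trans (Nat.modEq_zero_iff_dvd.2 dvd_rfl).symm
  rw [e2] at e1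
  have e3 : a n * a q = 1 * a q := by rw [← e1, one_mul]
  exact mul_right_cancel₀ haq e3

lemma eq_gcd {a : ℕ → ℂ} (h1 : a 1 = 1) (hram : Ram a) (he : Eul a) {q : ℕ} (hq : 1 ≤ q)
    (hper : ∀ m : ℕ, 1 ≤ m → a (m + q) = a m) (haq : a q ≠ 0) {n : ℕ} (hn : 1 ≤ n) :
    a n = a (n.gcd q) := by
  set g := n.gcd q with hg
  have hg0 : 0 < g := Nat.gcd_pos_of_pos_left _ hn
  obtain ⟨n', hn'⟩ : g ∣ n := Nat.gcd_dvd_left n q
  obtain ⟨q', hq'⟩ : g ∣ q := Nat.gcd_dvd_right n q
  have hcop : n'.Coprime q' := by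
    have := Nat.coprime_div_gcd_div_gcd (m := n) (n := q) hg0
    rw [← hg] at this
    have d1 : n / g = n' := by
      conv_lhs => rw [hn']
      exact Nat.mul_div_cancel_left _ hg0
    have d2 : q / g = q' := by
      conv_lhs => rw [hq']
      exact Nat.mul_div_cancel_left _ hg0
    rwa [d1, d2] at this
  have hq'0 : q' ≠ 0 := by rintro rfl; simp at hq'; omega
  have : NeZero q' := ⟨hq'0⟩
  obtain ⟨p, hpq, hp, hpe⟩ := Nat.forall_exists_prime_gt_and_eq_mod (q := q') (a := (n' : ZMod q'))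
    ((ZMod.isUnit_iff_coprime n' q').2 hcop) q
  have hpc : p.Coprime q := (Nat.Prime.coprime_iff_not_dvd hp).2 fun h => by
    have := Nat.le_of_dvd hq h
    omega
  have hpg : g.Coprime p := (Nat.Coprime.coprime_dvd_right ⟨q', hq'⟩ hpc).symm
  have e1 := mult h1 hram he hg0.ne' hp.ne_zero hpg
  rw [eq_one h1 hram he hq hper haq hp.one_le hpc, mul_one] at e1
  rw [← e1]
  refine per_mod hper hn (Nat.mul_pos hg0 hp.pos) ?_
  have h2 : p ≡ n' [MOD q'] := (ZMod.natCast_eq_natCast_iff _ _ _).1 hpe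
  have h3 := h2.symm.mul_left' g
  rw [← hn', ← hq'] at h3
  exact h3

/-- the Dirichlet series of `n ↦ [gcd(n,q) = g]` -/
lemma LSeries_gcd {q : ℕ} (hq : 1 ≤ q) {g : ℕ} (hg : g ∈ q.divisors) {s : ℂ} (hs : 1 < s.re) :
    LSeries (fun n => if n.gcd q = g then 1 else 0) s =
      (g : ℂ) ^ (-s) * ((∏ p ∈ (q / g).primeFactors, (1 - (p : ℂ) ^ (-s))) * riemannZeta s) := by
  obtain ⟨⟨q', hq'⟩, -⟩ := Nat.mem_divisors.1 hg
  have hg0 : 0 < g := Nat.pos_of_mem_divisors hg
  have hq'0 : q' ≠ 0 := by rintro rfl; simp at hq'; omega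
  have : NeZero q' := ⟨hq'0⟩
  have d2 : q / g = q' := by
    conv_lhs => rw [hq']
    exact Nat.mul_div_cancel_left _ hg0
  have hs1 : s ≠ 1 := by rintro rfl; simp at hs
  rw [d2, ← DirichletCharacter.LFunctionTrivChar_eq_mul_riemannZeta (N := q') hs1]
  unfold DirichletCharacter.LFunctionTrivChar
  rw [DirichletCharacter.LFunction_eq_LSeries _ hs]
  unfold LSeries
  have hinj : Function.Injective (fun n : ℕ => g * n) := fun x y hxy => Nat.eq_of_mul_eq_mul_left hg0 hxy
  rw [← hinj.tsum_eq, ← tsum_mul_left]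
  · refine tsum_congr fun n => ?_
    by_cases hn : n = 0
    · simp [hn]
    · rw [term_of_ne_zero (Nat.mul_ne_zero hg0.ne' hn), term_of_ne_zero hn]
      have e1 : (g * n).gcd q = g * n.gcd q' := by rw [hq', Nat.gcd_mul_left]
      have e2 : ((g * n : ℕ) : ℂ) ^ s = (g : ℂ) ^ s * (n : ℂ) ^ s := by
        rw [Nat.cast_mul, Complex.natCast_mul_natCast_cpow]
      have hgs : (g : ℂ) ^ s ≠ 0 := by
        rw [Ne, Complex.cpow_eq_zero_iff]
        intro h
        exact hg0.ne' (by exact_mod_cast h.1)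
      rw [e2, Complex.cpow_neg]
      by_cases hc : n.Coprime q'
      · rw [if_pos, MulChar.one_apply ((ZMod.isUnit_iff_coprime n q').2 hc)]
        · rw [div_mul_eq_div_div, ← mul_div_assoc, inv_eq_one_div, div_mul_eq_mul_div, one_mul]
        · rw [e1, hc, mul_one]
      · rw [if_neg, MulChar.map_nonunit _ (fun h => hc ((ZMod.isUnit_iff_coprime n q').1 h))]
        · simp
        · rw [e1]
          intro h
          apply hc
          have : g * n.gcd q' = g * 1 := by rw [h, mul_one]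
          exact Nat.eq_of_mul_eq_mul_left hg0 this
  · intro n hn
    rw [Function.mem_support] at hn
    by_cases hn0 : n = 0
    · exact absurd (by simp [hn0]) hn
    · rw [term_of_ne_zero hn0] at hn
      have : n.gcd q = g := by
        by_contra hc
        rw [if_neg hc] at hn
        simp at hn
      obtain ⟨k, hk⟩ : g ∣ n := this ▸ Nat.gcd_dvd_left n q
      exact ⟨k, hk.symm⟩

/-- the finite Dirichlet polynomial -/
noncomputable def EE (a : ℕ → ℂ) (q : ℕ) (s : ℂ) : ℂ :=
  ∑ g ∈ q.divisors, a g * ((g : ℂ) ^ (-s) * ∏ p ∈ (q / g).primeFactors, (1 - (p : ℂ) ^ (-s)))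

lemma summable_gcd {q : ℕ} (g : ℕ) {s : ℂ} (hs : 1 < s.re) :
    LSeriesSummable (fun n => if n.gcd q = g then (1 : ℂ) else 0) s := by
  refine LSeriesSummable_of_bounded_of_one_lt_re (m := 1) ?_ hs
  intro n _
  split_ifs <;> simp

lemma LSeries_eq {a : ℕ → ℂ} (h1 : a 1 = 1) (hram : Ram a) (he : Eul a) {q : ℕ} (hq : 1 ≤ q)
    (hper : ∀ m : ℕ, 1 ≤ m → a (m + q) = a m) (haq : a q ≠ 0) {s : ℂ} (hs : 1 < s.re) :
    LSeries a s = riemannZeta s * EE a q s := by
  have e1 : LSeries a s = LSeries (∑ g ∈ q.divisors, (a g) • (fun n : ℕ => if n.gcd q = g then (1 : ℂ) else 0)) s := by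
    refine LSeries_congr (fun {n} hn => ?_) s
    rw [Finset.sum_apply]
    simp only [Pi.smul_apply, smul_eq_mul, mul_ite, mul_one, mul_zero]
    rw [Finset.sum_ite_eq]
    rw [if_pos (Nat.mem_divisors.2 ⟨Nat.gcd_dvd_right n q, by omega⟩)]
    exact eq_gcd h1 hram he hq hper haq (Nat.one_le_iff_ne_zero.2 hn)
  rw [e1, LSeries_sum (fun g _ => (summable_gcd g hs).smul (a g))]
  unfold EE
  rw [Finset.mul_sum]
  refine Finset.sum_congr rfl fun g hg => ?_
  rw [LSeries_smul, LSeries_gcd hq hg hs]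
  ring

lemma diff_EE (a : ℕ → ℂ) (q : ℕ) : Differentiable ℂ (EE a q) := by
  unfold EE
  refine Differentiable.fun_sum fun g hg => ?_
  have hcp : ∀ n : ℕ, n ≠ 0 → Differentiable ℂ (fun s : ℂ => (n : ℂ) ^ (-s)) := by
    intro n hn s
    exact (differentiableAt_id.neg).const_cpow (Or.inl (by exact_mod_cast hn))
  refine Differentiable.const_mul ?_ _
  refine (hcp g (Nat.pos_of_mem_divisors hg).ne').mul ?_
  refine Differentiable.fun_finsetProd fun p hp => ?_
  exact (differentiable_const _).sub (hcp p (Nat.prime_of_mem_primeFactors hp).ne_zero)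

/-- TASK AR: `G = (s-1)^m ζ E` with `E` a Dirichlet polynomial. -/
theorem ar_eq {a : ℕ → ℂ} (h1 : a 1 = 1) (hram : Ram a) (he : Eul a) {q : ℕ} (hq : 1 ≤ q)
    (hper : ∀ m : ℕ, 1 ≤ m → a (m + q) = a m) (haq : a q ≠ 0) {m : ℕ} {G : ℂ → ℂ}
    (hG : Differentiable ℂ G) (hGL : ∀ s : ℂ, 1 < s.re → G s = (s - 1) ^ m * LSeries a s)
    {s : ℂ} (hs : s ≠ 1) : G s = (s - 1) ^ m * (riemannZeta s * EE a q s) := by
  have hU : IsPreconnected ({1}ᶜ : Set ℂ) :=
    (isConnected_compl_singleton_of_one_lt_rank (by simp) (1 : ℂ)).isPreconnected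
  have hUo : IsOpen ({1}ᶜ : Set ℂ) := isOpen_compl_singleton
  have h2 : DifferentiableOn ℂ (fun s => (s - 1) ^ m * (riemannZeta s * EE a q s)) ({1}ᶜ : Set ℂ) := by
    intro z hz
    refine DifferentiableAt.differentiableWithinAt ?_
    exact ((differentiableAt_id.sub_const 1).pow m).mul
      ((differentiableAt_riemannZeta hz).mul (diff_EE a q z))
  refine AnalyticOnNhd.eqOn_of_preconnected_of_eventuallyEq (z₀ := 2)
    ((Complex.analyticOnNhd_univ_iff_differentiable.2 hG).mono (Set.subset_univ _))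
    (h2.analyticOnNhd hUo) hU (by simp) ?_ hs
  have : {s : ℂ | 1 < s.re} ∈ 𝓝 (2:ℂ) :=
    (isOpen_lt continuous_const Complex.continuous_re).mem_nhds (by simp)
  filter_upwards [this] with z hz
  rw [hGL z hz, LSeries_eq h1 hram he hq hper haq hz]

/-- TASK AR -/
theorem ar {a : ℕ → ℂ} (h1 : a 1 = 1) (hram : Ram a) (he : Eul a) {q : ℕ} (hq : 1 ≤ q)
    (hper : ∀ m : ℕ, 1 ≤ m → a (m + q) = a m) (haq : a q ≠ 0) {m : ℕ} {G : ℂ → ℂ}
    (hG : Cont a m G) {ρ : ℂ} (hρ : ρ ≠ 1) (hz : riemannZeta ρ = 0) : G ρ = 0 := by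
  rw [ar_eq h1 hram he hq hper haq hG.1 hG.2.2 hρ, hz]
  ring

end Pool.Agent.H600R3.PO
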