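import Mathlib
import Pool.Agent.H336R4.PF.Defs
import Pool.Agent.H177R3.TaskPFV
import Pool.Agent.H180R3.PFT3
import Pool.Agent.H600R3.PO.AR

/-!
# POLEORDER, task CS: Selberg's asymptotic forces `|F(σ)| ≤ C / (σ - 1)`
-/

set_option autoImplicit false

namespace Pool.Agent.H600R3.PO

open Pool.Agent.H336R4.PF
open Finset Filter Topology LSeries

/-- Euler product lower bound -/
lemma log_le_euler (y : ℕ) : Real.log y ≤ ∏ p ∈ (y + 1).primesBelow, (1 - (p : ℝ)⁻¹)⁻¹ := by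
  let f : ℕ →* ℝ :=
    { toFun := fun n => (n : ℝ)⁻¹
      map_one' := by simp
      map_mul' := by intro a b; push_cast; rw [mul_inv] }
  have hf : ∀ n, f n = (n : ℝ)⁻¹ := fun n => rfl
  have h := (EulerProduct.summable_and_hasSum_smoothNumbers_prod_primesBelow_geometric (f := f)
    (by
      intro p hp
      rw [hf, norm_inv, RCLike.norm_natCast]
      have : (1 : ℝ) < p := by exact_mod_cast hp.one_lt
      exact inv_lt_one_of_one_lt₀ this) (y + 1)).2
  have hmem : ∀ n ∈ Finset.Icc 1 y, n ∈ Nat.smoothNumbers (y + 1) := by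
    intro n hn
    rw [Finset.mem_Icc] at hn
    rw [Nat.mem_smoothNumbers']
    intro p hp hpn
    have := Nat.le_of_dvd (by omega) hpn
    omega
  classical
  have h2 := sum_le_hasSum ((Finset.Icc 1 y).subtype (· ∈ Nat.smoothNumbers (y + 1)))
    (fun i _ => by rw [hf]; positivity) h
  rw [Finset.sum_subtype_of_mem (fun n => f n) hmem] at h2
  have h3 : Real.log ((y + 1 : ℕ) : ℝ) ≤ ∑ n ∈ Finset.Icc 1 y, f n := by
    have := log_add_one_le_harmonic y
    rw [harmonic_eq_sum_Icc] at this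
    push_cast at this ⊢
    simpa [hf] using this
  have h4 : Real.log (y : ℝ) ≤ Real.log ((y + 1 : ℕ) : ℝ) := by
    rcases Nat.eq_zero_or_pos y with rfl | hy
    · simp
    · apply Real.log_le_log (by exact_mod_cast hy)
      push_cast; linarith
  calc _ ≤ _ := h4
    _ ≤ _ := h3
    _ ≤ _ := h2
    _ = _ := by simp only [hf]

/-- `-log(1-x) ≤ x/(1-x)` in the form `log (1-1/p)⁻¹ ≤ 1/p + 1/(p(p-1))` -/
lemma log_factor_le {p : ℕ} (hp : 2 ≤ p) :
    Real.log ((1 - (p : ℝ)⁻¹)⁻¹) ≤ 1 / (p : ℝ) + (1 / ((p : ℝ) - 1) - 1 / (p : ℝ)) := by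
  have hp' : (2 : ℝ) ≤ p := by exact_mod_cast hp
  have h1 : 0 < (1 - (p : ℝ)⁻¹)⁻¹ := by
    apply inv_pos.2
    have : (p : ℝ)⁻¹ < 1 := inv_lt_one_of_one_lt₀ (by linarith)
    linarith
  have h2 := Real.log_le_sub_one_of_pos h1
  have h3 : (1 - (p : ℝ)⁻¹)⁻¹ - 1 = 1 / ((p : ℝ) - 1) := by
    have : (p : ℝ) - 1 ≠ 0 := by linarith
    have h0 : (p : ℝ) ≠ 0 := by linarith
    have h4 : 1 - (p : ℝ)⁻¹ = ((p : ℝ) - 1) / p := by field_simp
    rw [h4, inv_div]
    field_simp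
    ring
  linarith

/-- the easy half of Mertens' second theorem -/
lemma mertens_low : ∀ N : ℕ, 3 ≤ N →
    Real.log (Real.log N) ≤ ∑ p ∈ (Finset.Iic N).filter Nat.Prime, 1 / (p : ℝ) + 1 := by
  intro N hN
  have hN' : (3 : ℝ) ≤ N := by exact_mod_cast hN
  have hlog : 0 < Real.log N := Real.log_pos (by linarith)
  have e0 : (N + 1).primesBelow = (Finset.Iic N).filter Nat.Prime := by
    ext p
    rw [Nat.mem_primesBelow, Finset.mem_filter, Finset.mem_Iic]
    constructor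
    · rintro ⟨h1, h2⟩; exact ⟨by omega, h2⟩
    · rintro ⟨h1, h2⟩; exact ⟨by omega, h2⟩
  have h1 := log_le_euler N
  rw [e0] at h1
  have h2 := Real.log_le_log hlog h1
  rw [Real.log_prod] at h2
  · refine h2.trans ?_
    have h3 : ∑ p ∈ (Finset.Iic N).filter Nat.Prime, Real.log ((1 - (p : ℝ)⁻¹)⁻¹) ≤
        ∑ p ∈ (Finset.Iic N).filter Nat.Prime, (1 / (p : ℝ) + (1 / ((p : ℝ) - 1) - 1 / (p : ℝ))) :=
      Finset.sum_le_sum fun p hp => log_factor_le (Finset.mem_filter.1 hp).2.two_le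
    refine h3.trans ?_
    rw [Finset.sum_add_distrib]
    refine add_le_add le_rfl ?_
    have h4 : ∑ p ∈ (Finset.Iic N).filter Nat.Prime, (1 / ((p : ℝ) - 1) - 1 / (p : ℝ)) ≤
        ∑ p ∈ Finset.Icc 2 N, (1 / ((p : ℝ) - 1) - 1 / (p : ℝ)) := by
      refine Finset.sum_le_sum_of_subset_of_nonneg ?_ ?_
      · intro p hp
        rw [Finset.mem_filter, Finset.mem_Iic] at hp
        rw [Finset.mem_Icc]
        exact ⟨hp.2.two_le, hp.1⟩
      · intro p hp _
        rw [Finset.mem_Icc] at hp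
        have hp' : (2 : ℝ) ≤ p := by exact_mod_cast hp.1
        have : 1 / (p : ℝ) ≤ 1 / ((p : ℝ) - 1) := one_div_le_one_div_of_le (by linarith) (by linarith)
        linarith
    refine h4.trans ?_
    have h5 : ∀ M : ℕ, ∑ p ∈ Finset.Icc 2 (M + 1), (1 / ((p : ℝ) - 1) - 1 / (p : ℝ)) = 1 - 1 / ((M : ℝ) + 1) := by
      intro M
      induction M with
      | zero => simp
      | succ M ih =>
        rw [Finset.sum_Icc_succ_top (by omega), ih]
        push_cast
        have : (M : ℝ) + 1 + 1 - 1 = (M : ℝ) + 1 := by ring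
        rw [this]
        ring
    obtain ⟨M, rfl⟩ : ∃ M, N = M + 1 := ⟨N - 1, by omega⟩
    rw [h5]
    have : 0 ≤ 1 / ((M : ℝ) + 1) := by positivity
    linarith
  · intro p hp
    have hp2 := (Finset.mem_filter.1 hp).2.two_le
    have hp' : (2 : ℝ) ≤ p := by exact_mod_cast hp2
    have : (p : ℝ)⁻¹ < 1 := inv_lt_one_of_one_lt₀ (by linarith)
    exact inv_ne_zero (by linarith)

/-- Abel summation -/
lemma abel_le {x w : ℕ → ℝ} {C : ℝ} (hx : ∀ N, ∑ n ∈ range N, x n ≤ C) (hw : Antitone w)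
    (hw0 : ∀ n, 0 ≤ w n) (hC : 0 ≤ C) (N : ℕ) : ∑ n ∈ range N, x n * w n ≤ C * w 0 := by
  have key : ∀ N : ℕ, ∑ n ∈ range (N + 1), x n * w n ≤
      C * (w 0 - w N) + (∑ n ∈ range (N + 1), x n) * w N := by
    intro N
    induction N with
    | zero => simp
    | succ N ih =>
      rw [Finset.sum_range_succ _ (N + 1), Finset.sum_range_succ (fun n => x n) (N + 1)]
      have h1 : 0 ≤ w N - w (N + 1) := sub_nonneg.2 (hw (Nat.le_succ N))
      have h2 := hx (N + 1)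
      nlinarith [mul_nonneg (sub_nonneg.2 h2) h1]
  rcases N with _ | N
  · simpa using mul_nonneg hC (hw0 0)
  · have h1 := key N
    have h2 := mul_le_mul_of_nonneg_right (hx (N + 1)) (hw0 N)
    linarith

/-- `Σ_{p < N} p^{-σ} ≤ log ζ(σ)` -/
lemma prime_sum_le {σ : ℝ} (hσ : 1 < σ) (N : ℕ) :
    ∑ p ∈ (range N).filter Nat.Prime, (p : ℝ) ^ (-σ) ≤ Real.log ‖riemannZeta (σ : ℂ)‖ := by
  have hsum : Summable fun n : ℕ => (n : ℝ) ^ (-σ) := Real.summable_nat_rpow.2 (by linarith)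
  have hz : ‖riemannZeta (σ : ℂ)‖ = ∑' n : ℕ, (n : ℝ) ^ (-σ) := by
    rw [zeta_eq_tsum_one_div_nat_cpow (by simpa using hσ)]
    have : (∑' n : ℕ, 1 / (n : ℂ) ^ (σ : ℂ)) = ((∑' n : ℕ, (n : ℝ) ^ (-σ) : ℝ) : ℂ) := by
      rw [Complex.ofReal_tsum]
      refine tsum_congr fun n => ?_
      rw [Complex.ofReal_cpow (Nat.cast_nonneg n), Complex.ofReal_neg, Complex.cpow_neg, one_div,
        Complex.ofReal_natCast]
    rw [this, Complex.norm_real, Real.norm_eq_abs, abs_of_nonneg (tsum_nonneg fun n => by positivity)]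
  let f : ℕ →* ℝ :=
    { toFun := fun n => (n : ℝ) ^ (-σ)
      map_one' := by simp
      map_mul' := by intro a b; push_cast; rw [Real.mul_rpow (Nat.cast_nonneg _) (Nat.cast_nonneg _)] }
  have hf : ∀ n, f n = (n : ℝ) ^ (-σ) := fun n => rfl
  have hlt : ∀ {p : ℕ}, p.Prime → (p : ℝ) ^ (-σ) < 1 := by
    intro p hp
    exact Real.rpow_lt_one_of_one_lt_of_neg (by exact_mod_cast hp.one_lt) (by linarith)
  have h := (EulerProduct.summable_and_hasSum_smoothNumbers_prod_primesBelow_geometric (f := f)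
    (by
      intro p hp
      rw [hf, Real.norm_eq_abs, abs_of_nonneg (by positivity)]
      exact hlt hp) N).2
  have h2 : ∏ p ∈ N.primesBelow, (1 - f p)⁻¹ ≤ ∑' n : ℕ, (n : ℝ) ^ (-σ) := by
    rw [← h.tsum_eq]
    exact Summable.tsum_subtype_le (fun n : ℕ => (n : ℝ) ^ (-σ)) _
      (fun n => Real.rpow_nonneg (Nat.cast_nonneg n) _) hsum
  have e0 : N.primesBelow = (range N).filter Nat.Prime := rfl
  rw [e0] at h2
  rw [hz, ← Real.log_exp (∑ p ∈ (range N).filter Nat.Prime, (p : ℝ) ^ (-σ))]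
  refine Real.log_le_log (Real.exp_pos _) ?_
  refine le_trans ?_ h2
  rw [Real.exp_sum]
  refine Finset.prod_le_prod (fun p _ => (Real.exp_pos _).le) fun p hp => ?_
  have hp' := (Finset.mem_filter.1 hp).2
  have h3 := hlt hp'
  rw [hf]
  have h4 : 0 < 1 - (p : ℝ) ^ (-σ) := by linarith
  rw [← one_div, le_div_iff₀ h4]
  have h5 := Real.one_sub_le_exp_neg ((p : ℝ) ^ (-σ))
  calc Real.exp ((p : ℝ) ^ (-σ)) * (1 - (p : ℝ) ^ (-σ)) ≤
      Real.exp ((p : ℝ) ^ (-σ)) * Real.exp (-(p : ℝ) ^ (-σ)) :=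
        mul_le_mul_of_nonneg_left h5 (Real.exp_pos _).le
    _ = 1 := by rw [← Real.exp_add, add_neg_cancel, Real.exp_zero]

/-- eventually `Σ_{p<N} p^{-σ} ≤ log (2/(σ-1))` -/
lemma prime_sum_ev : ∀ᶠ σ : ℝ in 𝓝[>] (1 : ℝ), 1 < σ ∧ σ < 2 ∧ ∀ N : ℕ,
    ∑ p ∈ (range N).filter Nat.Prime, (p : ℝ) ^ (-σ) ≤ Real.log (2 / (σ - 1)) := by
  have h1 : Tendsto (fun σ : ℝ => (σ : ℂ)) (𝓝[>] (1 : ℝ)) (𝓝[≠] (1 : ℂ)) := by
    refine tendsto_nhdsWithin_iff.2 ⟨?_, ?_⟩
    · exact (Complex.continuous_ofReal.tendsto' 1 1 (by simp)).mono_left nhdsWithin_le_nhds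
    · filter_upwards [self_mem_nhdsWithin] with σ hσ
      have : (1 : ℝ) < σ := hσ
      intro h
      have h2 := congrArg Complex.re h
      simp at h2
      linarith
  have h2 := (riemannZeta_residue_one.comp h1).norm
  rw [norm_one] at h2
  have h3 := h2.eventually (gt_mem_nhds (by norm_num : (1 : ℝ) < 2))
  have h4 : ∀ᶠ σ : ℝ in 𝓝[>] (1 : ℝ), σ < 2 :=
    nhdsWithin_le_nhds (gt_mem_nhds (by norm_num : (1 : ℝ) < 2))
  filter_upwards [h3, h4, self_mem_nhdsWithin] with σ hσ hσ2 hσ1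
  have hσ1' : (1 : ℝ) < σ := hσ1
  refine ⟨hσ1', hσ2, fun N => (prime_sum_le hσ1' N).trans ?_⟩
  simp only [Function.comp] at hσ
  rw [norm_mul] at hσ
  have h5 : ‖(σ : ℂ) - 1‖ = σ - 1 := by
    rw [← Complex.ofReal_one, ← Complex.ofReal_sub, Complex.norm_real, Real.norm_eq_abs,
      abs_of_pos (by linarith)]
  rw [h5] at hσ
  have h6 : 0 < ‖riemannZeta (σ : ℂ)‖ := by
    rw [norm_pos_iff]
    exact riemannZeta_ne_zero_of_one_lt_re (by simpa using hσ1')
  refine Real.log_le_log h6 ?_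
  rw [le_div_iff₀ (by linarith)]
  linarith

/-- coefficients of the logarithm at primes -/
lemma b_prime {a b : ℕ → ℂ} (ha : abscissaOfAbsConv a ≤ (1 : ℝ)) (h1 : a 1 = 1) {θ C : ℝ} (hθ : θ < 1 / 2)
    (hb : ∀ n : ℕ, 1 ≤ n → ‖b n‖ ≤ C * (n : ℝ) ^ θ)
    (hexp : ∀ s : ℂ, 1 < s.re → LSeries a s = Complex.exp (LSeries b s)) {p : ℕ} (hp : p.Prime) :
    b p = a p := by
  have key := rec_eq ha hθ hb hexp hp.ne_zero
  rw [hp.sum_divisors] at key
  simp only [Nat.cast_one, Real.log_one, Complex.ofReal_zero, mul_zero, Nat.div_self hp.pos, h1,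
    one_mul] at key
  have hlog : (Real.log p : ℂ) ≠ 0 := by
    exact_mod_cast (Real.log_pos (by exact_mod_cast hp.one_lt)).ne'
  have : a p * (Real.log p : ℂ) = b p * (Real.log p : ℂ) := by
    rw [key]; ring
  exact (mul_right_cancel₀ hlog this).symm

/-- proper prime powers -/
def PP : Set ℕ := {n | IsPrimePow n ∧ ¬ n.Prime}

lemma summable_PP {c : ℝ} (hc : 1 / 2 < c) : Summable (PP.indicator fun n : ℕ => (n : ℝ) ^ (-c)) := by
  rw [← summable_subtype_iff_indicator]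
  have h1 : Summable fun x : ℕ × ℕ => ((x.1 : ℝ) + 2) ^ (-(2 * c)) * ((2 : ℝ) ^ (-c)) ^ x.2 := by
    refine Summable.mul_of_nonneg (f := fun m : ℕ => ((m : ℝ) + 2) ^ (-(2 * c)))
      (g := fun k : ℕ => ((2 : ℝ) ^ (-c)) ^ k) ?_ ?_ ?_ ?_
    · have := (summable_nat_add_iff 2).2 (Real.summable_nat_rpow.2 (by linarith : -(2 * c) < -1))
      refine this.congr fun m => ?_
      push_cast
      rfl
    · refine summable_geometric_of_lt_one (by positivity) ?_
      exact Real.rpow_lt_one_of_one_lt_of_neg (by norm_num) (by linarith)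
    · intro m; positivity
    · intro k; positivity
  have h2 : Summable fun x : ℕ × ℕ => (((x.1 + 2) ^ (x.2 + 2) : ℕ) : ℝ) ^ (-c) := by
    refine h1.of_nonneg_of_le (fun x => by positivity) fun x => ?_
    have hm : (0 : ℝ) < (x.1 : ℝ) + 2 := by positivity
    have e1 : (((x.1 + 2) ^ (x.2 + 2) : ℕ) : ℝ) ^ (-c) =
        ((x.1 : ℝ) + 2) ^ (-(2 * c)) * (((x.1 : ℝ) + 2) ^ (-c)) ^ x.2 := by
      push_cast
      rw [← Real.rpow_natCast, ← Real.rpow_natCast, ← Real.rpow_mul hm.le, ← Real.rpow_mul hm.le,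
        ← Real.rpow_add hm]
      congr 1
      push_cast
      ring
    rw [e1]
    refine mul_le_mul_of_nonneg_left ?_ (by positivity)
    refine pow_le_pow_left₀ (by positivity) ?_ _
    refine Real.rpow_le_rpow_of_nonpos (by norm_num) ?_ (by linarith)
    have : (0 : ℝ) ≤ (x.1 : ℝ) := Nat.cast_nonneg _
    linarith
  have h3 : ∀ n : PP, ∃ x : ℕ × ℕ, (x.1 + 2) ^ (x.2 + 2) = (n : ℕ) := by
    rintro ⟨n, hn, hnp⟩
    rw [isPrimePow_nat_iff] at hn
    obtain ⟨p, k, hp, hk, hpk⟩ := hn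
    have hk2 : 2 ≤ k := by
      by_contra h
      have : k = 1 := by omega
      rw [this, pow_one] at hpk
      exact hnp (hpk ▸ hp)
    refine ⟨(p - 2, k - 2), ?_⟩
    simp only
    rw [Nat.sub_add_cancel hp.two_le, Nat.sub_add_cancel hk2, hpk]
  choose s hs using h3
  have hinj : Function.Injective s := by
    intro x y hxy
    apply Subtype.ext
    rw [← hs x, ← hs y, hxy]
  have h4 := h2.comp_injective hinj
  refine h4.congr fun n => ?_
  simp only [Function.comp]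
  rw [hs n]

end Pool.Agent.H600R3.PO
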