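import Mathlib
import Pool.Agent.H336R4.PF.Defs
import Pool.Agent.H177R3.TaskPFV
import Pool.Agent.H600R3.PO.CS1

/-!
# POLEORDER, task CS: the primitive factor of degree `< 2` with a simple pole
-/

set_option autoImplicit false

namespace Pool.Agent.H600R3.PO

open Pool.Agent.H336R4.PF
open Finset Filter Topology LSeries

/-- the upper half of Selberg's asymptotic -/
def SUp (a : ℕ → ℂ) : Prop := ∃ C : ℝ, ∀ N : ℕ, 3 ≤ N →
  ∑ p ∈ (Finset.Iic N).filter Nat.Prime, ‖a p‖ ^ 2 / (p : ℝ) ≤ Real.log (Real.log N) + C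

lemma sup_range {a : ℕ → ℂ} (hS : SUp a) : ∃ C : ℝ, 0 ≤ C ∧ ∀ N : ℕ,
    ∑ n ∈ range N, (if n.Prime then (‖a n‖ ^ 2 - 1) / (n : ℝ) else 0) ≤ C := by
  obtain ⟨C, hC⟩ := hS
  set u : ℕ → ℝ := fun n => if n.Prime then (‖a n‖ ^ 2 - 1) / (n : ℝ) else 0 with hu
  set K : ℝ := ∑ M ∈ range 4, |∑ n ∈ range M, u n| with hK
  have hK0 : 0 ≤ K := Finset.sum_nonneg fun _ _ => abs_nonneg _
  refine ⟨|C + 1| + K, by positivity, fun N => ?_⟩
  rcases Nat.lt_or_ge N 4 with hN | hN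
  · have h1 : |∑ n ∈ range N, u n| ≤ K :=
      Finset.single_le_sum (f := fun M => |∑ n ∈ range M, u n|) (fun _ _ => abs_nonneg _)
        (Finset.mem_range.2 hN)
    have h2 := le_abs_self (∑ n ∈ range N, u n)
    have h3 := abs_nonneg (C + 1)
    linarith
  · obtain ⟨M, rfl⟩ : ∃ M, N = M + 1 := ⟨N - 1, by omega⟩
    have hM : 3 ≤ M := by omega
    have e0 : range (M + 1) = Finset.Iic M := by
      ext n
      rw [Finset.mem_range, Finset.mem_Iic]
      omega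
    have e1 : ∑ n ∈ range (M + 1), u n = ∑ p ∈ (Finset.Iic M).filter Nat.Prime, ‖a p‖ ^ 2 / (p : ℝ) -
        ∑ p ∈ (Finset.Iic M).filter Nat.Prime, 1 / (p : ℝ) := by
      rw [e0, ← Finset.sum_sub_distrib, Finset.sum_filter]
      refine Finset.sum_congr rfl fun n _ => ?_
      simp only [hu]
      split_ifs
      · ring
      · rfl
    rw [e1]
    have h1 := hC M hM
    have h2 := mertens_low M hM
    have h3 := le_abs_self (C + 1)
    linarith

/-- TASK CS: Selberg's upper bound forces `|F(σ)| ≤ C/(σ-1)`. -/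
theorem cs_bound {a : ℕ → ℂ} (h1 : a 1 = 1) (hram : Ram a) (he : Eul a) (hS : SUp a) :
    ∃ C : ℝ, 0 < C ∧ ∀ᶠ σ : ℝ in 𝓝[>] (1 : ℝ), ‖LSeries a (σ : ℂ)‖ ≤ C / (σ - 1) := by
  obtain ⟨C₁, hC₁, hu⟩ := sup_range hS
  obtain ⟨b, hbp, θ, hθ, Cb, hb, hexp⟩ := he
  have ha := ram_absc hram
  have hCb : 0 ≤ Cb := by
    have := (norm_nonneg _).trans (hb 1 le_rfl)
    simpa using this
  set T : ℝ := ∑' n : ℕ, PP.indicator (fun n : ℕ => (n : ℝ) ^ (-(1 - θ))) n with hT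
  have hTs : Summable (PP.indicator fun n : ℕ => (n : ℝ) ^ (-(1 - θ))) := summable_PP (by linarith)
  refine ⟨2 * Real.exp (C₁ / 2 + Cb * T), by positivity, ?_⟩
  filter_upwards [prime_sum_ev] with σ hσ
  obtain ⟨hσ1, hσ2, hσN⟩ := hσ
  -- the second moment
  have hsec : ∀ N : ℕ, ∑ p ∈ (range N).filter Nat.Prime, (‖a p‖ ^ 2 - 1) * (p : ℝ) ^ (-σ) ≤ C₁ := by
    intro N
    have hw : Antitone fun n : ℕ => (((max n 1 : ℕ) : ℝ)) ^ (-(σ - 1)) := by
      intro m n hmn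
      refine Real.rpow_le_rpow_of_nonpos ?_ ?_ (by linarith)
      · exact_mod_cast lt_of_lt_of_le one_pos (le_max_right m 1)
      · exact_mod_cast max_le_max_right 1 hmn
    have h2 := abel_le hu hw (fun n => by positivity) hC₁ N
    have e0 : (((max 0 1 : ℕ) : ℝ)) ^ (-(σ - 1)) = 1 := by simp
    rw [e0, mul_one] at h2
    refine le_trans (le_of_eq ?_) h2
    rw [Finset.sum_filter]
    refine Finset.sum_congr rfl fun n _ => ?_
    split_ifs with hp
    · have hn : (0 : ℝ) < n := by exact_mod_cast hp.pos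
      rw [max_eq_left hp.one_le, show -(σ - 1) = -σ + 1 by ring, Real.rpow_add hn, Real.rpow_one]
      field_simp
    · rw [zero_mul]
  have hfirst : ∀ N : ℕ, ∑ p ∈ (range N).filter Nat.Prime, ‖a p‖ * (p : ℝ) ^ (-σ) ≤
      Real.log (2 / (σ - 1)) + C₁ / 2 := by
    intro N
    have h2 : ∑ p ∈ (range N).filter Nat.Prime, ‖a p‖ * (p : ℝ) ^ (-σ) ≤
        ∑ p ∈ (range N).filter Nat.Prime, ((p : ℝ) ^ (-σ) + (1 / 2) * ((‖a p‖ ^ 2 - 1) * (p : ℝ) ^ (-σ))) := by
      refine Finset.sum_le_sum fun p _ => ?_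
      have h3 : 0 ≤ (p : ℝ) ^ (-σ) := by positivity
      nlinarith [mul_nonneg (sq_nonneg (‖a p‖ - 1)) h3]
    rw [Finset.sum_add_distrib, ← Finset.mul_sum] at h2
    have h4 := hσN N
    have h5 := hsec N
    linarith
  -- the terms of `log F`
  have hterm : ∀ n : ℕ, ‖term b (σ : ℂ) n‖ ≤ (if n.Prime then ‖a n‖ * (n : ℝ) ^ (-σ) else 0) +
      Cb * PP.indicator (fun n : ℕ => (n : ℝ) ^ (-(1 - θ))) n := by
    intro n
    rcases Nat.eq_zero_or_pos n with rfl | hn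
    · rw [term_zero, norm_zero]
      have : 0 ≤ PP.indicator (fun n : ℕ => (n : ℝ) ^ (-(1 - θ))) 0 :=
        Set.indicator_nonneg (fun _ _ => by positivity) _
      have h2 : ¬ Nat.Prime 0 := Nat.not_prime_zero
      rw [if_neg h2]
      positivity
    have hn0 : (0 : ℝ) < n := by exact_mod_cast hn
    have hn1 : (1 : ℝ) ≤ n := by exact_mod_cast hn
    have e1 : ‖term b (σ : ℂ) n‖ = ‖b n‖ * (n : ℝ) ^ (-σ) := by
      rw [norm_term_eq, if_neg hn.ne', Complex.ofReal_re, Real.rpow_neg hn0.le]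
      rfl
    rw [e1]
    by_cases hp : n.Prime
    · rw [if_pos hp, b_prime ha h1 hθ hb hexp hp]
      have : 0 ≤ PP.indicator (fun n : ℕ => (n : ℝ) ^ (-(1 - θ))) n :=
        Set.indicator_nonneg (fun _ _ => by positivity) _
      have h3 := mul_nonneg hCb this
      linarith
    · rw [if_neg hp, zero_add]
      by_cases hpp : IsPrimePow n
      · rw [Set.indicator_of_mem (show n ∈ PP from ⟨hpp, hp⟩)]
        calc ‖b n‖ * (n : ℝ) ^ (-σ) ≤ (Cb * (n : ℝ) ^ θ) * (n : ℝ) ^ (-1 : ℝ) := by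
              refine mul_le_mul (hb n hn) ?_ (by positivity) (by positivity)
              exact Real.rpow_le_rpow_of_exponent_le hn1 (by linarith)
          _ = Cb * (n : ℝ) ^ (-(1 - θ)) := by
              rw [mul_assoc, ← Real.rpow_add hn0]
              congr 2
              ring
      · rw [hbp n hpp, norm_zero, zero_mul]
        have : 0 ≤ PP.indicator (fun n : ℕ => (n : ℝ) ^ (-(1 - θ))) n :=
          Set.indicator_nonneg (fun _ _ => by positivity) _
        positivity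
  have hpart : ∀ N : ℕ, ∑ n ∈ range N, ‖term b (σ : ℂ) n‖ ≤ Real.log (2 / (σ - 1)) + C₁ / 2 + Cb * T := by
    intro N
    refine (Finset.sum_le_sum fun n _ => hterm n).trans ?_
    rw [Finset.sum_add_distrib, ← Finset.sum_filter, ← Finset.mul_sum]
    refine add_le_add (hfirst N) (mul_le_mul_of_nonneg_left ?_ hCb)
    exact hTs.sum_le_tsum _ (fun n _ => Set.indicator_nonneg (fun _ _ => by positivity) _)
  have hsumm : Summable fun n => ‖term b (σ : ℂ) n‖ :=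
    summable_of_sum_range_le (fun n => norm_nonneg _) hpart
  have hL : ‖LSeries b (σ : ℂ)‖ ≤ Real.log (2 / (σ - 1)) + C₁ / 2 + Cb * T :=
    (norm_tsum_le_tsum_norm hsumm).trans (Real.tsum_le_of_sum_range_le (fun n => norm_nonneg _) hpart)
  rw [hexp (σ : ℂ) (by simpa using hσ1), Complex.norm_exp]
  refine (Real.exp_le_exp.2 ((Complex.re_le_norm _).trans hL)).trans (le_of_eq ?_)
  have hpos : 0 < 2 / (σ - 1) := div_pos two_pos (by linarith)
  rw [add_assoc, Real.exp_add, Real.exp_log hpos]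
  ring

/-! ### normal form of the polar part -/

lemma growth_dslope {G : ℂ → ℂ} (hG : Differentiable ℂ G) (h1 : G 1 = 0)
    (hb : ∃ ρ C : ℝ, ∀ z : ℂ, ‖G z‖ ≤ C * Real.exp (‖z‖ ^ ρ)) :
    Differentiable ℂ (dslope G 1) ∧ (∃ ρ C : ℝ, ∀ z : ℂ, ‖dslope G 1 z‖ ≤ C * Real.exp (‖z‖ ^ ρ)) ∧
      ∀ z : ℂ, G z = (z - 1) * dslope G 1 z := by
  have hd : Differentiable ℂ (dslope G 1) := by
    have := (Complex.differentiableOn_dslope (f := G) (c := 1) (s := Set.univ) Filter.univ_mem).2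
      hG.differentiableOn
    exact differentiableOn_univ.1 this
  have hmul : ∀ z : ℂ, G z = (z - 1) * dslope G 1 z := by
    intro z
    have := sub_smul_dslope G 1 z
    rw [smul_eq_mul, h1, sub_zero] at this
    exact this.symm
  refine ⟨hd, ?_, hmul⟩
  obtain ⟨ρ, C, hC⟩ := hb
  obtain ⟨M, hM⟩ := (isCompact_closedBall (1 : ℂ) 1).exists_bound_of_continuousOn
    hd.continuous.continuousOn
  refine ⟨ρ, max M C, fun z => ?_⟩
  have hexp1 : 1 ≤ Real.exp (‖z‖ ^ ρ) := Real.one_le_exp (by positivity)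
  have hM0 : 0 ≤ M := (norm_nonneg _).trans (hM 1 (Metric.mem_closedBall_self zero_le_one))
  by_cases hz : ‖z - 1‖ ≤ 1
  · have h2 := hM z (by rwa [Metric.mem_closedBall, dist_eq_norm])
    calc ‖dslope G 1 z‖ ≤ M := h2
      _ = M * 1 := (mul_one M).symm
      _ ≤ max M C * Real.exp (‖z‖ ^ ρ) :=
        mul_le_mul (le_max_left _ _) hexp1 zero_le_one (hM0.trans (le_max_left _ _))
  · have hz' : 1 ≤ ‖z - 1‖ := (not_le.1 hz).le
    have h2 : ‖G z‖ = ‖z - 1‖ * ‖dslope G 1 z‖ := by rw [← norm_mul, ← hmul z]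
    have h3 : ‖dslope G 1 z‖ ≤ ‖G z‖ := by
      rw [h2]
      nlinarith [norm_nonneg (dslope G 1 z)]
    refine h3.trans ((hC z).trans ?_)
    exact mul_le_mul_of_nonneg_right (le_max_right _ _) (Real.exp_pos _).le

/-- normal form: cancel the zero of `G` at `1` against the power of `s - 1` -/
lemma nf {a : ℕ → ℂ} : ∀ (m : ℕ) (G : ℂ → ℂ), Cont a m G → ∃ (m' : ℕ) (G' : ℂ → ℂ), Cont a m' G' ∧
    (G' 1 ≠ 0 ∨ m' = 0) ∧ ∀ s : ℂ, s ≠ 1 → G s / (s - 1) ^ m = G' s / (s - 1) ^ m' := by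
  intro m
  induction m with
  | zero =>
    intro G hG
    exact ⟨0, G, hG, Or.inr rfl, fun s _ => rfl⟩
  | succ m ih =>
    intro G hG
    by_cases h1 : G 1 = 0
    · obtain ⟨hd, hgr, hmul⟩ := growth_dslope hG.1 h1 hG.2.1
      have hC : Cont a m (dslope G 1) := by
        refine ⟨hd, hgr, fun s hs => ?_⟩
        have hs1 : s - 1 ≠ 0 := by
          intro h
          rw [sub_eq_zero] at h
          rw [h] at hs
          simp at hs
        have h2 := hG.2.2 s hs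
        rw [hmul s] at h2
        apply mul_left_cancel₀ hs1
        rw [h2]
        ring
      obtain ⟨m', G', hC', hor, hq⟩ := ih _ hC
      refine ⟨m', G', hC', hor, fun s hs => ?_⟩
      rw [← hq s hs, hmul s, pow_succ]
      have hs1 : s - 1 ≠ 0 := sub_ne_zero.2 hs
      field_simp
    · exact ⟨m + 1, G, hG, Or.inl h1, fun s _ => rfl⟩

lemma FE_congr {m m' : ℕ} {G G' : ℂ → ℂ} {Q : ℝ} {k : ℕ} {lam : Fin k → ℝ} {μ : Fin k → ℂ} {ω : ℂ}
    (h : FE m G Q k lam μ ω) (hq : ∀ s : ℂ, s ≠ 1 → G s / (s - 1) ^ m = G' s / (s - 1) ^ m') :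
    FE m' G' Q k lam μ ω := by
  obtain ⟨h1, h2, h3, h4⟩ := h
  refine ⟨h1, h2, h3, fun s hs0 hs1 => ?_⟩
  have e1 : s ≠ 1 := by rintro rfl; simp at hs1
  have e2 : 1 - starRingEnd ℂ s ≠ 1 := by
    intro h
    have := congrArg Complex.re h
    simp at this
    linarith
  have := h4 s hs0 hs1
  rw [hq s e1, hq _ e2] at this
  exact this

/-- two entire functions that agree for `Re s > 1` are equal -/
lemma entire_eq {f g : ℂ → ℂ} (hf : Differentiable ℂ f) (hg : Differentiable ℂ g)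
    (h : ∀ s : ℂ, 1 < s.re → f s = g s) (s : ℂ) : f s = g s := by
  refine AnalyticOnNhd.eqOn_of_preconnected_of_eventuallyEq (z₀ := 2)
    (Complex.analyticOnNhd_univ_iff_differentiable.2 hf)
    (Complex.analyticOnNhd_univ_iff_differentiable.2 hg) isPreconnected_univ (Set.mem_univ _) ?_
    (Set.mem_univ s)
  have : {s : ℂ | 1 < s.re} ∈ 𝓝 (2:ℂ) :=
    (isOpen_lt continuous_const Complex.continuous_re).mem_nhds (by simp)
  filter_upwards [this] with z hz
  exact h z hz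

lemma Cont.mul_eq {a : ℕ → ℂ} {k m : ℕ} {G G' : ℂ → ℂ} (h : Cont a k G) (h' : Cont a m G') (s : ℂ) :
    G s * (s - 1) ^ m = G' s * (s - 1) ^ k := by
  refine entire_eq (f := fun s => G s * (s - 1) ^ m) (g := fun s => G' s * (s - 1) ^ k)
    (h.1.mul ((differentiable_id.sub_const 1).pow m))
    (h'.1.mul ((differentiable_id.sub_const 1).pow k)) ?_ s
  intro s hs
  rw [h.2.2 s hs, h'.2.2 s hs]
  ring

lemma tendsto_one : Tendsto (fun σ : ℝ => (σ : ℂ)) (𝓝[>] (1 : ℝ)) (𝓝 (1 : ℂ)) :=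
  (Complex.continuous_ofReal.tendsto' 1 1 (by simp)).mono_left nhdsWithin_le_nhds

/-- a function bounded by `C (σ-1)` vanishes at `1` -/
lemma zero_of_small {G : ℂ → ℂ} (hG : Differentiable ℂ G) {C : ℝ}
    (h : ∀ᶠ σ : ℝ in 𝓝[>] (1 : ℝ), ‖G (σ : ℂ)‖ ≤ C * (σ - 1)) : G 1 = 0 := by
  have h1 : Tendsto (fun σ : ℝ => ‖G (σ : ℂ)‖) (𝓝[>] (1 : ℝ)) (𝓝 ‖G 1‖) :=
    ((hG.continuous.tendsto 1).comp tendsto_one).norm
  have h2 : Tendsto (fun σ : ℝ => C * (σ - 1)) (𝓝[>] (1 : ℝ)) (𝓝 0) := by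
    have : Tendsto (fun σ : ℝ => C * (σ - 1)) (𝓝 (1 : ℝ)) (𝓝 (C * (1 - 1))) :=
      (continuous_const.mul (continuous_id.sub continuous_const)).tendsto 1
    rw [sub_self, mul_zero] at this
    exact this.mono_left nhdsWithin_le_nhds
  have h3 := le_of_tendsto_of_tendsto h1 h2 h
  exact norm_le_zero_iff.1 h3

/-- with the bound `C/(σ-1)`, the order of the pole is at most one -/
lemma order_le_one {a : ℕ → ℂ} {C : ℝ} (hC : 0 < C)
    (hb : ∀ᶠ σ : ℝ in 𝓝[>] (1 : ℝ), ‖LSeries a (σ : ℂ)‖ ≤ C / (σ - 1)) {m : ℕ} {G : ℂ → ℂ}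
    (hG : Cont a m G) (h1 : G 1 ≠ 0) : m ≤ 1 := by
  by_contra hm
  obtain ⟨r, rfl⟩ : ∃ r, m = r + 2 := ⟨m - 2, by omega⟩
  refine h1 (zero_of_small hG.1 (C := C) ?_)
  have h2 : ∀ᶠ σ : ℝ in 𝓝[>] (1 : ℝ), σ < 2 :=
    nhdsWithin_le_nhds (gt_mem_nhds (by norm_num : (1 : ℝ) < 2))
  filter_upwards [hb, h2, self_mem_nhdsWithin] with σ hσ hσ2 hσ1
  have hσ1' : (1 : ℝ) < σ := hσ1
  have h5 : ‖(σ : ℂ) - 1‖ = σ - 1 := by
    rw [← Complex.ofReal_one, ← Complex.ofReal_sub, Complex.norm_real, Real.norm_eq_abs,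
      abs_of_pos (by linarith)]
  have hp : 0 < σ - 1 := by linarith
  rw [hG.2.2 σ (by simpa using hσ1'), norm_mul, norm_pow, h5]
  have h6 : (σ - 1) ^ r ≤ 1 := pow_le_one₀ hp.le (by linarith)
  calc (σ - 1) ^ (r + 2) * ‖LSeries a (σ : ℂ)‖ ≤ (σ - 1) ^ (r + 2) * (C / (σ - 1)) :=
        mul_le_mul_of_nonneg_left hσ (by positivity)
    _ = (σ - 1) ^ r * (C * (σ - 1)) := by
        field_simp
        ring
    _ ≤ 1 * (C * (σ - 1)) := mul_le_mul_of_nonneg_right h6 (by positivity)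
    _ = C * (σ - 1) := one_mul _

/-- the nontriviality of an element with a pole -/
lemma nt_of_pole {a : ℕ → ℂ} {d : ℝ} (h : Cls a d) {k : ℕ} {G : ℂ → ℂ} (hG : Cont a k G) (h1 : G 1 ≠ 0)
    (hd : d < 2 * k) : NT a := by
  by_contra hnt
  unfold NT at hnt
  push Not at hnt
  obtain ⟨ha1, -, ⟨m, G₀, -, Q, r, lam, μ, ω, -, hFE, hdd⟩, -⟩ := h
  have hL : ∀ s : ℂ, 1 < s.re → LSeries a s = 1 := by
    intro s hs
    unfold LSeries
    rw [tsum_eq_single 1]
    · rw [term_of_ne_zero one_ne_zero, ha1]; simp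
    · intro n hn
      rcases Nat.eq_zero_or_pos n with rfl | hn0
      · exact term_zero _ _
      · rw [term_of_ne_zero hn0.ne', hnt n (by omega), zero_div]
  have hk : 0 < k := by
    have h3 : 0 ≤ d := by
      rw [hdd]
      exact mul_nonneg two_pos.le (Finset.sum_nonneg fun j _ => (hFE.1 j).le)
    by_contra hk
    have : k = 0 := by omega
    rw [this] at hd
    simp at hd
    linarith
  have e : G 1 = (1 - 1) ^ k := by
    refine entire_eq (f := G) (g := fun s => (s - 1) ^ k) hG.1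
      ((differentiable_id.sub_const 1).pow k) ?_ 1
    intro s hs
    rw [hG.2.2 s hs, hL s hs, mul_one]
  rw [sub_self, zero_pow hk.ne'] at e
  exact h1 e

/-- the functional equation data of a normalised continuation -/
def FD (m : ℕ) (g : ℂ → ℂ) (d : ℝ) : Prop :=
  ∃ (Q : ℝ) (r : ℕ) (lam : Fin r → ℝ) (μ : Fin r → ℂ) (ω : ℂ), 0 < Q ∧ FE m g Q r lam μ ω ∧
    d = 2 * ∑ j, lam j

/-- **A primitive factor of degree `< 2` with a simple pole at `1`.** -/
theorem pick (hGap : DegGap) (hAdd : DegAdd) (hQ1 : ∀ f : ℕ → ℂ, Prim f → SUp f) :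
    ∀ (n : ℕ) (a : ℕ → ℂ) (d : ℝ), Cls a d → d < n → ∀ (k : ℕ) (G : ℂ → ℂ), Cont a k G → G 1 ≠ 0 →
      d < 2 * k → ∃ (f : ℕ → ℂ) (d' : ℝ) (g : ℂ → ℂ), Prim f ∧ Cls f d' ∧ 1 ≤ d' ∧ d' < 2 ∧
        Cont f 1 g ∧ g 1 ≠ 0 ∧ FD 1 g d' ∧ ∀ ρ : ℂ, ρ ≠ 1 → g ρ = 0 → G ρ = 0 := by
  have hone : ∀ (a : ℕ → ℂ) (d : ℝ), Cls a d → NT a → 1 ≤ d := by
    intro a d ha hnt
    by_contra hd
    obtain ⟨n, hn, hne⟩ := hnt
    exact hne (hGap a d ha (not_le.1 hd) n hn)
  intro n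
  induction n with
  | zero =>
    intro a d ha hdn k G hG h1 hd
    have := hone a d ha (nt_of_pole ha hG h1 hd)
    norm_num at hdn
    linarith
  | succ n ih =>
    intro a d ha hdn k G hG h1 hd
    have hnt := nt_of_pole ha hG h1 hd
    have hd1 := hone a d ha hnt
    by_cases hP : Prim a
    · -- the primitive case
      obtain ⟨C, hC, hb⟩ := cs_bound ha.1 ha.2.1 ha.2.2.2 (hQ1 a hP)
      have hk : k ≤ 1 := order_le_one hC hb hG h1
      have hk1 : k = 1 := by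
        have : k ≠ 0 := by
          rintro rfl
          simp at hd
          linarith
        omega
      subst hk1
      have hd2 : d < 2 := by simpa using hd
      refine ⟨a, d, G, hP, ha, hd1, hd2, hG, h1, ?_, fun ρ _ h => h⟩
      obtain ⟨-, -, ⟨m, G₀, hG₀, Q, r, lam, μ, ω, hQ, hFE, hdd⟩, -⟩ := ha
      refine ⟨Q, r, lam, μ, ω, hQ, ?_, hdd⟩
      refine FE_congr hFE fun s hs => ?_
      have hs1 : s - 1 ≠ 0 := sub_ne_zero.2 hs
      have := Cont.mul_eq hG₀ hG s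
      rw [div_eq_div_iff (pow_ne_zero _ hs1) (pow_ne_zero _ hs1)]
      exact this
    · have hSS := Pool.Agent.H177R3.PFV.cls_ss ha
      have : ∃ f g : ℕ → ℂ, SS f ∧ SS g ∧
          (∀ s : ℂ, 1 < s.re → LSeries a s = LSeries f s * LSeries g s) ∧ NT f ∧ NT g := by
        by_contra hno
        apply hP
        refine ⟨hSS, hnt, fun f g hf hg hfg => ?_⟩
        by_contra hcon
        rw [not_or] at hcon
        obtain ⟨h1, h2⟩ := hcon
        push Not at h1 h2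
        exact hno ⟨f, g, hf, hg, hfg, h1, h2⟩
      obtain ⟨f, g, hf, hg, hfg, hfn, hgn⟩ := this
      obtain ⟨d₁, hd₁⟩ := Pool.Agent.H177R3.PFV.ss_cls hf
      obtain ⟨d₂, hd₂⟩ := Pool.Agent.H177R3.PFV.ss_cls hg
      have hadd := hAdd a f g d d₁ d₂ ha hd₁ hd₂ hfg
      have hd₁1 := hone f d₁ hd₁ hfn
      have hd₂1 := hone g d₂ hd₂ hgn
      obtain ⟨m₁', G₁', hG₁', -⟩ := hd₁.2.2.1
      obtain ⟨m₂', G₂', hG₂', -⟩ := hd₂.2.2.1
      obtain ⟨m₁, G₁, hG₁, hor₁, -⟩ := nf m₁' G₁' hG₁'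
      obtain ⟨m₂, G₂, hG₂, hor₂, -⟩ := nf m₂' G₂' hG₂'
      have hprod : ∀ s : ℂ, G s * (s - 1) ^ (m₁ + m₂) = (s - 1) ^ k * (G₁ s * G₂ s) := by
        intro s
        refine entire_eq (f := fun s => G s * (s - 1) ^ (m₁ + m₂))
          (g := fun s => (s - 1) ^ k * (G₁ s * G₂ s))
          (hG.1.mul ((differentiable_id.sub_const 1).pow _))
          (((differentiable_id.sub_const 1).pow _).mul (hG₁.1.mul hG₂.1)) ?_ s
        intro s hs
        rw [hG.2.2 s hs, hG₁.2.2 s hs, hG₂.2.2 s hs, hfg s hs]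
        ring
      have hk : k ≤ m₁ + m₂ := by
        by_contra hk
        obtain ⟨r, hr⟩ : ∃ r, k = m₁ + m₂ + (r + 1) := ⟨k - (m₁ + m₂) - 1, by omega⟩
        have e : ∀ s : ℂ, s ≠ 1 → G s = (s - 1) ^ (r + 1) * (G₁ s * G₂ s) := by
          intro s hs
          have hs1 : (s - 1) ^ (m₁ + m₂) ≠ 0 := pow_ne_zero _ (sub_ne_zero.2 hs)
          apply mul_right_cancel₀ hs1
          rw [hprod s, hr]
          ring
        have e1 : G 1 = (1 - 1) ^ (r + 1) * (G₁ 1 * G₂ 1) := by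
          refine entire_eq (f := G) (g := fun s => (s - 1) ^ (r + 1) * (G₁ s * G₂ s)) hG.1
            (((differentiable_id.sub_const 1).pow _).mul (hG₁.1.mul hG₂.1)) ?_ 1
          intro s hs
          refine e s ?_
          rintro rfl
          simp at hs
        rw [sub_self, zero_pow (Nat.succ_ne_zero r), zero_mul] at e1
        exact h1 e1
      have hk' : (k : ℝ) ≤ m₁ + m₂ := by exact_mod_cast hk
      push_cast at hdn
      have hzero : ∀ ρ : ℂ, ρ ≠ 1 → G₁ ρ * G₂ ρ = 0 → G ρ = 0 := by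
        intro ρ hρ h0
        have := hprod ρ
        rw [h0, mul_zero] at this
        exact (mul_eq_zero.1 this).resolve_right (pow_ne_zero _ (sub_ne_zero.2 hρ))
      rcases lt_or_ge d₁ (2 * m₁) with hlt | hge
      · have h10 : G₁ 1 ≠ 0 := by
          refine hor₁.resolve_right ?_
          rintro rfl
          simp at hlt
          linarith
        obtain ⟨f', d', g', h2, h3, h4, h5, h6, h7, h8, h9⟩ :=
          ih f d₁ hd₁ (by linarith) m₁ G₁ hG₁ h10 hlt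
        exact ⟨f', d', g', h2, h3, h4, h5, h6, h7, h8, fun ρ hρ h => hzero ρ hρ (by rw [h9 ρ hρ h, zero_mul])⟩
      · have hlt : d₂ < 2 * m₂ := by linarith
        have h10 : G₂ 1 ≠ 0 := by
          refine hor₂.resolve_right ?_
          rintro rfl
          simp at hlt
          linarith
        obtain ⟨f', d', g', h2, h3, h4, h5, h6, h7, h8, h9⟩ :=
          ih g d₂ hd₂ (by linarith) m₂ G₂ hG₂ h10 hlt
        exact ⟨f', d', g', h2, h3, h4, h5, h6, h7, h8, fun ρ hρ h => hzero ρ hρ (by rw [h9 ρ hρ h, mul_zero])⟩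

end Pool.Agent.H600R3.PO
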