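import Mathlib
import Pool.Agent.H180R3.PO.Stmts
import Pool.Agent.H600R3.PO.CS2

/-!
# POLEORDER: tasks AR, CS, FIN in the exact form of `Stmts`
-/

set_option autoImplicit false

namespace Pool.Agent.H600R3.PO

open Pool.Agent.H336R4.PF Pool.Agent.H180R3.PO
open Finset Filter Topology LSeries

theorem taskAR : TaskAR := by
  intro a h1 hram he hP
  obtain ⟨q, hq, haq, hper⟩ := hP
  exact ⟨EE a q, fun s _ => diff_EE a q s, fun s hs => LSeries_eq h1 hram he hq hper haq hs⟩

theorem taskCS : TaskCS := by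
  intro a h1 hram he hS m G hG h
  obtain ⟨C, hC, hb⟩ := cs_bound h1 hram he hS
  exact order_le_one hC hb hG h

/-- a factor of degree `< 2` with a simple pole at `1`, and the product identity -/
theorem pick2 (hGap : DegGap) (hAdd : DegAdd) (hCS : TaskCS) (hQ1 : ∀ f : ℕ → ℂ, Prim f → Q1up f) :
    ∀ (n : ℕ) (a : ℕ → ℂ) (d : ℝ), Cls a d → d < n → ∀ (k : ℕ) (G : ℂ → ℂ), Cont a k G → G 1 ≠ 0 →
      d < 2 * k → ∃ (f : ℕ → ℂ) (d' : ℝ) (g : ℂ → ℂ), Cls f d' ∧ 1 ≤ d' ∧ d' < 2 ∧
        Cont f 1 g ∧ g 1 ≠ 0 ∧ ∃ (j : ℕ) (H : ℂ → ℂ), Differentiable ℂ H ∧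
          ∀ s : ℂ, G s * (s - 1) ^ j = g s * H s := by
  have hone : ∀ (a : ℕ → ℂ) (d : ℝ), Cls a d → NT a → 1 ≤ d := by
    intro a d ha hnt
    by_contra hd
    obtain ⟨n, hn, hne⟩ := hnt
    exact hne (hGap a d ha (not_le.1 hd) n hn)
  intro n
  induction n with
  | zero =>
    intro a d ha hdn k G hG h1 hd
    have := hone a d ha (nt_of_pole ha hG h1 hd)
    norm_num at hdn
    linarith
  | succ n ih =>
    intro a d ha hdn k G hG h1 hd
    have hnt := nt_of_pole ha hG h1 hd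
    have hd1 := hone a d ha hnt
    by_cases hP : Prim a
    · -- the primitive case
      have hk : k ≤ 1 := hCS a ha.1 ha.2.1 ha.2.2.2 (hQ1 a hP) k G hG h1
      have hk1 : k = 1 := by
        have : k ≠ 0 := by
          rintro rfl
          simp at hd
          linarith
        omega
      subst hk1
      have hd2 : d < 2 := by simpa using hd
      exact ⟨a, d, G, ha, hd1, hd2, hG, h1, 0, fun _ => 1, differentiable_const _, fun s => by ring⟩
    · have hSS := Pool.Agent.H177R3.PFV.cls_ss ha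
      have : ∃ f g : ℕ → ℂ, SS f ∧ SS g ∧
          (∀ s : ℂ, 1 < s.re → LSeries a s = LSeries f s * LSeries g s) ∧ NT f ∧ NT g := by
        by_contra hno
        apply hP
        refine ⟨hSS, hnt, fun f g hf hg hfg => ?_⟩
        by_contra hcon
        rw [not_or] at hcon
        obtain ⟨h1, h2⟩ := hcon
        push Not at h1 h2
        exact hno ⟨f, g, hf, hg, hfg, h1, h2⟩
      obtain ⟨f, g, hf, hg, hfg, hfn, hgn⟩ := this
      obtain ⟨d₁, hd₁⟩ := Pool.Agent.H177R3.PFV.ss_cls hf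
      obtain ⟨d₂, hd₂⟩ := Pool.Agent.H177R3.PFV.ss_cls hg
      have hadd := hAdd a f g d d₁ d₂ ha hd₁ hd₂ hfg
      have hd₁1 := hone f d₁ hd₁ hfn
      have hd₂1 := hone g d₂ hd₂ hgn
      obtain ⟨m₁', G₁', hG₁', -⟩ := hd₁.2.2.1
      obtain ⟨m₂', G₂', hG₂', -⟩ := hd₂.2.2.1
      obtain ⟨m₁, G₁, hG₁, hor₁, -⟩ := nf m₁' G₁' hG₁'
      obtain ⟨m₂, G₂, hG₂, hor₂, -⟩ := nf m₂' G₂' hG₂'
      have hprod : ∀ s : ℂ, G s * (s - 1) ^ (m₁ + m₂) = (s - 1) ^ k * (G₁ s * G₂ s) := by
        intro s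
        refine entire_eq (f := fun s => G s * (s - 1) ^ (m₁ + m₂))
          (g := fun s => (s - 1) ^ k * (G₁ s * G₂ s))
          (hG.1.mul ((differentiable_id.sub_const 1).pow _))
          (((differentiable_id.sub_const 1).pow _).mul (hG₁.1.mul hG₂.1)) ?_ s
        intro s hs
        rw [hG.2.2 s hs, hG₁.2.2 s hs, hG₂.2.2 s hs, hfg s hs]
        ring
      have hk : k ≤ m₁ + m₂ := by
        by_contra hk
        obtain ⟨r, hr⟩ : ∃ r, k = m₁ + m₂ + (r + 1) := ⟨k - (m₁ + m₂) - 1, by omega⟩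
        have e : ∀ s : ℂ, s ≠ 1 → G s = (s - 1) ^ (r + 1) * (G₁ s * G₂ s) := by
          intro s hs
          have hs1 : (s - 1) ^ (m₁ + m₂) ≠ 0 := pow_ne_zero _ (sub_ne_zero.2 hs)
          apply mul_right_cancel₀ hs1
          rw [hprod s, hr]
          ring
        have e1 : G 1 = (1 - 1) ^ (r + 1) * (G₁ 1 * G₂ 1) := by
          refine entire_eq (f := G) (g := fun s => (s - 1) ^ (r + 1) * (G₁ s * G₂ s)) hG.1
            (((differentiable_id.sub_const 1).pow _).mul (hG₁.1.mul hG₂.1)) ?_ 1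
          intro s hs
          refine e s ?_
          rintro rfl
          simp at hs
        rw [sub_self, zero_pow (Nat.succ_ne_zero r), zero_mul] at e1
        exact h1 e1
      have hk' : (k : ℝ) ≤ m₁ + m₂ := by exact_mod_cast hk
      push_cast at hdn
      rcases lt_or_ge d₁ (2 * m₁) with hlt | hge
      · have h10 : G₁ 1 ≠ 0 := by
          refine hor₁.resolve_right ?_
          rintro rfl
          simp at hlt
          linarith
        obtain ⟨f', d', g', h2, h3, h4, h5, h6, j, H, h7, h8⟩ :=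
          ih f d₁ hd₁ (by linarith) m₁ G₁ hG₁ h10 hlt
        refine ⟨f', d', g', h2, h3, h4, h5, h6, m₁ + m₂ + j, fun s => H s * ((s - 1) ^ k * G₂ s),
          h7.mul (((differentiable_id.sub_const 1).pow _).mul hG₂.1), fun s => ?_⟩
        calc G s * (s - 1) ^ (m₁ + m₂ + j) = (G s * (s - 1) ^ (m₁ + m₂)) * (s - 1) ^ j := by
              rw [pow_add]; ring
          _ = (G₁ s * (s - 1) ^ j) * ((s - 1) ^ k * G₂ s) := by rw [hprod s]; ring
          _ = g' s * (H s * ((s - 1) ^ k * G₂ s)) := by rw [h8 s]; ring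
      · have hlt : d₂ < 2 * m₂ := by linarith
        have h10 : G₂ 1 ≠ 0 := by
          refine hor₂.resolve_right ?_
          rintro rfl
          simp at hlt
          linarith
        obtain ⟨f', d', g', h2, h3, h4, h5, h6, j, H, h7, h8⟩ :=
          ih g d₂ hd₂ (by linarith) m₂ G₂ hG₂ h10 hlt
        refine ⟨f', d', g', h2, h3, h4, h5, h6, m₁ + m₂ + j, fun s => H s * ((s - 1) ^ k * G₁ s),
          h7.mul (((differentiable_id.sub_const 1).pow _).mul hG₁.1), fun s => ?_⟩
        calc G s * (s - 1) ^ (m₁ + m₂ + j) = (G s * (s - 1) ^ (m₁ + m₂)) * (s - 1) ^ j := by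
              rw [pow_add]; ring
          _ = (G₂ s * (s - 1) ^ j) * ((s - 1) ^ k * G₁ s) := by rw [hprod s]; ring
          _ = g' s * (H s * ((s - 1) ^ k * G₁ s)) := by rw [h8 s]; ring

/-- `(s - 1) ζ(s)` as an entire function -/
noncomputable def Zt : ℂ → ℂ := Function.update (fun s => (s - 1) * riemannZeta s) 1 1

lemma Zt_eq {s : ℂ} (hs : s ≠ 1) : Zt s = (s - 1) * riemannZeta s := by
  unfold Zt
  rw [Function.update_of_ne hs]

lemma Zt_diff : Differentiable ℂ Zt := by
  have h0 : ∀ s : ℂ, s ≠ 1 → DifferentiableAt ℂ Zt s := by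
    intro s hs
    have h1 : DifferentiableAt ℂ (fun s => (s - 1) * riemannZeta s) s :=
      (differentiableAt_id.sub_const 1).mul (differentiableAt_riemannZeta hs)
    refine h1.congr_of_eventuallyEq ?_
    filter_upwards [isOpen_compl_singleton.mem_nhds hs] with z hz
    exact Zt_eq hz
  intro s
  by_cases hs : s = 1
  · subst hs
    refine (Complex.analyticAt_of_differentiable_on_punctured_nhds_of_continuousAt ?_ ?_).differentiableAt
    · filter_upwards [self_mem_nhdsWithin] with z hz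
      exact h0 z hz
    · unfold Zt
      rw [continuousAt_update_same]
      exact riemannZeta_residue_one
  · exact h0 s hs

theorem taskFIN : TaskFIN := by
  intro hGap hAdd hLow hCS hElt
  by_contra hno
  have hQ1 : ∀ f : ℕ → ℂ, Prim f → Q1up f := by
    intro f hf
    by_contra h
    exact hno ⟨f, hf, h⟩
  obtain ⟨a, d, k, G, ρ, ha, hG, h1, hd, hρ0, hρ1, htend⟩ := hElt
  obtain ⟨f, d', g, hf, hd1, hd2, hg, hg1, j, H, hH, hid⟩ :=
    pick2 hGap hAdd hCS hQ1 (⌈d⌉₊ + 1) a d ha (by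
      push_cast
      exact lt_of_le_of_lt (Nat.le_ceil d) (by linarith)) k G hG h1 hd
  obtain ⟨E, hE, hLE⟩ := hLow f d' hf hd1 hd2 g hg hg1
  -- `g = Z E` on the half plane
  have hgZ : ∀ s : ℂ, 0 < s.re → g s = Zt s * E s := by
    intro s hs
    have hU : IsPreconnected {s : ℂ | 0 < s.re} := (convex_halfSpace_re_gt 0).isPreconnected
    have hUo : IsOpen {s : ℂ | 0 < s.re} := isOpen_lt continuous_const Complex.continuous_re
    have h2 : DifferentiableOn ℂ (fun s => Zt s * E s) {s : ℂ | 0 < s.re} := fun z hz =>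
      ((Zt_diff z).mul (hE z hz)).differentiableWithinAt
    refine AnalyticOnNhd.eqOn_of_preconnected_of_eventuallyEq (z₀ := 2)
      ((Complex.analyticOnNhd_univ_iff_differentiable.2 hg.1).mono (Set.subset_univ _))
      (h2.analyticOnNhd hUo) hU (by simp) ?_ hs
    have : {s : ℂ | 1 < s.re} ∈ 𝓝 (2:ℂ) :=
      (isOpen_lt continuous_const Complex.continuous_re).mem_nhds (by simp)
    filter_upwards [this] with z hz
    have hz1 : z ≠ 1 := by
      intro h
      rw [h] at hz
      simp at hz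
    rw [hg.2.2 z hz, hLE z hz, Zt_eq hz1, pow_one]
    ring
  -- boundedness of the quotient near `ρ`
  set Φ : ℂ → ℂ := fun s => (s - 1) * E s * H s / (s - 1) ^ j with hΦ
  have hΦc : ContinuousAt Φ ρ := by
    have e1 : ContinuousAt (fun s : ℂ => (s - 1) * E s * H s) ρ :=
      ((continuousAt_id.sub continuousAt_const).mul (hE ρ hρ0).continuousAt).mul (hH ρ).continuousAt
    have e2 : ContinuousAt (fun s : ℂ => (s - 1) ^ j) ρ :=
      (continuousAt_id.sub continuousAt_const).pow j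
    exact e1.div e2 (pow_ne_zero _ (sub_ne_zero.2 hρ1))
  have hle : ∀ᶠ s in 𝓝[≠] ρ, ‖G s / riemannZeta s‖ ≤ ‖Φ s‖ := by
    have m1 : {s : ℂ | 0 < s.re} ∈ 𝓝 ρ :=
      (isOpen_lt continuous_const Complex.continuous_re).mem_nhds hρ0
    have m2 : ({1}ᶜ : Set ℂ) ∈ 𝓝 ρ := isOpen_compl_singleton.mem_nhds hρ1
    filter_upwards [nhdsWithin_le_nhds m1, nhdsWithin_le_nhds m2] with s hs hs1
    have hs1' : s ≠ 1 := hs1
    by_cases hz : riemannZeta s = 0
    · rw [hz, div_zero, norm_zero]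
      exact norm_nonneg _
    · refine le_of_eq ?_
      congr 1
      have hne : (s - 1) ^ j ≠ 0 := pow_ne_zero _ (sub_ne_zero.2 hs1')
      have e := hid s
      rw [hgZ s hs, Zt_eq hs1'] at e
      simp only [hΦ]
      rw [div_eq_div_iff hz hne, e]
      ring
  have hbd : ∀ᶠ s in 𝓝[≠] ρ, ‖Φ s‖ ≤ ‖Φ ρ‖ + 1 := by
    have := hΦc.norm.eventually (gt_mem_nhds (lt_add_one ‖Φ ρ‖))
    exact nhdsWithin_le_nhds (this.mono fun s hs => hs.le)
  have hgt := htend.eventually_gt_atTop (‖Φ ρ‖ + 1)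
  obtain ⟨s, hs1, hs2, hs3⟩ := (hle.and (hbd.and hgt)).exists
  exact absurd (hs1.trans hs2) (not_le.2 hs3)

end Pool.Agent.H600R3.PO
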