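import Pool.Agent.H902R3.PZ.W3
import Pool.Agent.H600R3.PO.Tasks

set_option autoImplicit false

/-!
# POLEORDER, wrapper part 1: coefficients and Euler product of `ζ ^ k · H`; the rational function `TN`
-/

namespace Pool.Agent.H600R3.PO

open Finset Pool.Agent.H469R10.HO Pool.Agent.H902R3.I469 Pool.Agent.H902R3.PZ Pool.Agent.H336R4.PF
open Pool.Agent.H180R3.PO
open scoped ArithmeticFunction.vonMangoldt

/-! ### coefficients -/

section Coeff

variable {m : ℕ} {β : ℕ → ℝ}

/-- coefficients of `ζ ^ k · H` -/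
noncomputable def ak (m : ℕ) (β : ℕ → ℝ) : ℕ → ℕ → ℂ
  | 0 => ff m β
  | k + 1 => LSeries.convolution (1 : ℕ → ℂ) (ak m β k)

theorem ram_conv {f : ℕ → ℂ} (hf : Ram f) : Ram (LSeries.convolution (1 : ℕ → ℂ) f) := by
  intro ε hε
  obtain ⟨C, hC⟩ := hf (ε / 2) (by linarith)
  obtain ⟨C', hC'0, hC'⟩ := Pool.Agent.H510R2.divisor_bound (ε / 2) (by linarith)
  refine ⟨|C| * C', fun n hn => ?_⟩
  have hn0 : (0 : ℝ) < n := by exact_mod_cast hn
  rw [LSeries.convolution_def]
  refine (norm_sum_le _ _).trans ?_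
  have h1 : ∀ p ∈ n.divisorsAntidiagonal, ‖(1 : ℕ → ℂ) p.1 * f p.2‖ ≤ |C| * (n : ℝ) ^ (ε / 2) := by
    intro p hp
    rw [Nat.mem_divisorsAntidiagonal] at hp
    have hp2 : 1 ≤ p.2 := by
      rcases Nat.eq_zero_or_pos p.2 with h | h
      · rw [h, mul_zero] at hp
        omega
      · exact h
    have hp3 : p.2 ≤ n := Nat.le_of_dvd hn ⟨p.1, by rw [← hp.1, mul_comm]⟩
    rw [norm_mul, Pi.one_apply, norm_one, one_mul]
    have hp20 : (0 : ℝ) < p.2 := by exact_mod_cast hp2
    calc ‖f p.2‖ ≤ C * (p.2 : ℝ) ^ (ε / 2) := hC _ hp2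
      _ ≤ |C| * (p.2 : ℝ) ^ (ε / 2) := mul_le_mul_of_nonneg_right (le_abs_self C) (by positivity)
      _ ≤ |C| * (n : ℝ) ^ (ε / 2) := by
          apply mul_le_mul_of_nonneg_left _ (abs_nonneg C)
          exact Real.rpow_le_rpow hp20.le (by exact_mod_cast hp3) (by linarith)
  refine (Finset.sum_le_sum h1).trans ?_
  have hcard : n.divisorsAntidiagonal.card = n.divisors.card := by
    rw [← Nat.map_div_right_divisors, Finset.card_map]
  rw [Finset.sum_const, nsmul_eq_mul, hcard]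
  have h2 := hC' n hn
  calc (n.divisors.card : ℝ) * (|C| * (n : ℝ) ^ (ε / 2)) ≤
      (C' * (n : ℝ) ^ (ε / 2)) * (|C| * (n : ℝ) ^ (ε / 2)) :=
        mul_le_mul_of_nonneg_right h2 (by positivity)
    _ = |C| * C' * ((n : ℝ) ^ (ε / 2) * (n : ℝ) ^ (ε / 2)) := by ring
    _ = |C| * C' * (n : ℝ) ^ ε := by
        rw [← Real.rpow_add hn0]
        congr 2
        ring

theorem ak_ram (hβ : ∀ p : ℕ, p.Prime → |β p| ≤ (p : ℝ) ^ (-(1 / 2 + m / lamOf m))) (k : ℕ) :
    Ram (ak m β k) := by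
  induction k with
  | zero =>
    intro ε hε
    refine ⟨1, fun n hn => (norm_ff_le hβ n).trans ?_⟩
    rw [one_mul]
    exact Real.one_le_rpow (by exact_mod_cast hn) hε.le
  | succ k ih => exact ram_conv ih

theorem ak_one (k : ℕ) : ak m β k 1 = 1 := by
  induction k with
  | zero => exact ff_one
  | succ k ih =>
    unfold ak
    rw [LSeries.convolution_def]
    simp [ih]

theorem LSeries_ak (hβ : ∀ p : ℕ, p.Prime → |β p| ≤ (p : ℝ) ^ (-(1 / 2 + m / lamOf m))) (k : ℕ)
    {s : ℂ} (hs : 1 < s.re) : LSeries (ak m β k) s = riemannZeta s ^ k * LSeries (ff m β) s := by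
  induction k with
  | zero =>
    rw [pow_zero, one_mul]
    rfl
  | succ k ih =>
    have h1 : LSeries (ak m β (k + 1)) s = LSeries (LSeries.convolution (1 : ℕ → ℂ) (ak m β k)) s := rfl
    rw [h1, LSeries_convolution' (summable_one hs)
      (Pool.Agent.H177R3.PFV.ram_summable (ak_ram hβ k) hs), LSeries_one_eq_riemannZeta hs, ih]
    ring

/-- logarithm coefficients of `ζ ^ k · H` -/
noncomputable def bk (m : ℕ) (β : ℕ → ℝ) (k : ℕ) (n : ℕ) : ℂ :=
  (k : ℂ) * ((Λ n : ℂ) / (Real.log n : ℂ)) + bH m β n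

theorem ak_eul (hβ : ∀ p : ℕ, p.Prime → |β p| ≤ (p : ℝ) ^ (-(1 / 2 + m / lamOf m))) (k : ℕ) :
    Eul (ak m β k) := by
  refine ⟨bk m β k, fun n hn => ?_, 0, by norm_num, (k : ℝ) + 1, fun n hn => ?_, fun s hs => ?_⟩
  · unfold bk bH
    rw [if_neg hn, ArithmeticFunction.vonMangoldt_eq_zero_iff.2 hn]
    simp
  · rw [Real.rpow_zero, mul_one]
    unfold bk
    refine (norm_add_le _ _).trans (add_le_add ?_ (norm_bH_le hβ n))
    rw [norm_mul, Complex.norm_natCast]
    exact mul_le_of_le_one_right (Nat.cast_nonneg k) (norm_L_le n)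
  · have h1 : bk m β k = (k : ℂ) • (fun n : ℕ => (Λ n : ℂ) / (Real.log n : ℂ)) + bH m β := by
      funext n
      simp only [bk, Pi.add_apply, Pi.smul_apply, smul_eq_mul]
    have h2 : LSeriesSummable (fun n : ℕ => (Λ n : ℂ) / (Real.log n : ℂ)) s :=
      LSeriesSummable_of_bounded_of_one_lt_re (m := 1) (fun n _ => norm_L_le n) hs
    rw [h1, LSeries_add (h2.smul _) (summable_bH hβ hs), LSeries_smul, Complex.exp_add, exp_bH hβ hs,
      LSeries_ak hβ k hs, Complex.exp_nat_mul, riemannZeta_eq_exp_LSeries hs]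

/-- absolute convergence beyond `Re s = 1` -/
lemma summable_ff2 {α : ℕ → ℝ} (hα : ∀ n : ℕ, 1 ≤ n → α n = if Squarefree n then ∏ p ∈ n.primeFactors, β p else 0)
    (hsum : Summable (fun n => |α n|)) {s : ℂ} (hs : kap m ≤ s.re) : LSeriesSummable (ff m β) s := by
  unfold LSeriesSummable
  apply Summable.of_norm_bounded hsum
  intro n
  rcases Nat.eq_zero_or_pos n with h | h
  · subst h; simp [LSeries.term_zero]
  · have hn : (0 : ℝ) < n := by exact_mod_cast h
    have hn1 : (1 : ℝ) ≤ n := by exact_mod_cast h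
    rw [LSeries.term_of_ne_zero h.ne', norm_div, Complex.norm_natCast_cpow_of_pos h]
    unfold ff
    rw [Complex.norm_real, Real.norm_eq_abs, fr_eq hα h, abs_mul,
      abs_of_pos (Real.rpow_pos_of_pos hn _), mul_div_assoc]
    apply mul_le_of_le_one_right (abs_nonneg _)
    rw [div_le_one (Real.rpow_pos_of_pos hn _)]
    exact Real.rpow_le_rpow_of_exponent_le hn1 hs

lemma kap_lt2 (m : ℕ) : kap m < 1 := by
  have h := lam_kap m
  have hl := lam_pos m
  have h3 : lamOf m = 2 * m + 2 - 1 / 3 := rfl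
  by_contra h1
  push Not at h1
  nlinarith

lemma kap_ge2 (m : ℕ) : 1 / 2 ≤ kap m := by
  unfold kap
  have hl := lam_pos m
  have : (0 : ℝ) ≤ m / lamOf m := by positivity
  linarith

/-- `H(1) ≠ 0` -/
lemma H_one_ne2 (hβ : ∀ p : ℕ, p.Prime → |β p| ≤ (p : ℝ) ^ (-(1 / 2 + m / lamOf m))) {α : ℕ → ℝ}
    (hα : ∀ n : ℕ, 1 ≤ n → α n = if Squarefree n then ∏ p ∈ n.primeFactors, β p else 0)
    (hsum : Summable (fun n => |α n|)) : LSeries (ff m β) 1 ≠ 0 := by
  have hsum := summable_ff2 hα hsum (s := 1) (by simpa using (kap_lt2 m).le)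
  set g : ℕ → ℂ := LSeries.term (ff m β) 1 with hg
  have hg0 : g 0 = 0 := by rw [hg]; exact LSeries.term_zero _ _
  have hg1 : g 1 = 1 := by
    rw [hg, LSeries.term_of_ne_zero one_ne_zero]
    simp [ff_one]
  have hgm : ∀ {a b : ℕ}, Nat.Coprime a b → g (a * b) = g a * g b := by
    intro a b hab
    rcases Nat.eq_zero_or_pos a with ha | ha
    · subst ha; rw [zero_mul, hg0, zero_mul]
    rcases Nat.eq_zero_or_pos b with hb | hb
    · subst hb; rw [mul_zero, hg0, mul_zero]
    rw [hg, LSeries.term_of_ne_zero (Nat.mul_pos ha hb).ne', LSeries.term_of_ne_zero ha.ne',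
      LSeries.term_of_ne_zero hb.ne']
    unfold ff
    rw [fr_mul hab]
    push_cast
    rw [Complex.natCast_mul_natCast_cpow]
    ring
  have hE := EulerProduct.eulerProduct_hasProd hg1 hgm (by exact hsum.norm) hg0
  have hL : (∑' n, g n) = LSeries (ff m β) 1 := rfl
  rw [hL] at hE
  have hloc : ∀ p : Nat.Primes, (∑' e : ℕ, g ((p : ℕ) ^ e)) = 1 + g p := by
    intro p
    have hp := p.2
    rw [tsum_eq_sum (s := Finset.range 2)]
    · rw [Finset.sum_range_succ, Finset.sum_range_one, pow_zero, pow_one, hg1]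
    · intro e he
      rw [Finset.mem_range, not_lt] at he
      rw [hg, LSeries.term_of_ne_zero (pow_ne_zero _ hp.ne_zero)]
      unfold ff
      rw [fr_prime_pow hp he]
      simp
  have hsp : Summable fun p : Nat.Primes => g p := hsum.comp_injective (i := fun p : Nat.Primes => (p : ℕ)) Subtype.val_injective
  have hnl : ∀ p : Nat.Primes, ‖g p‖ < 1 := by
    intro p
    have hp := p.2
    rw [hg, LSeries.term_of_ne_zero hp.ne_zero, norm_div, Complex.cpow_one, Complex.norm_natCast]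
    have h1 := norm_ff_le hβ (p : ℕ)
    have h2 : (1 : ℝ) < (p : ℕ) := by exact_mod_cast hp.one_lt
    rw [div_lt_one (by linarith)]
    linarith
  have hne : ∀ p : Nat.Primes, 1 + g p ≠ 0 := by
    intro p h0
    have h1 := hnl p
    have : g p = -1 := by linear_combination h0
    rw [this, norm_neg, norm_one] at h1
    exact lt_irrefl _ h1
  have hlog := Complex.summable_log_one_add_of_summable hsp
  have h1 := Complex.cexp_tsum_eq_tprod hne hlog
  have h2 := hE.tprod_eq
  rw [← h2]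
  have h3 : (∏' p : Nat.Primes, ∑' e : ℕ, g ((p : ℕ) ^ e)) = ∏' p : Nat.Primes, (1 + g p) :=
    tprod_congr hloc
  rw [h3, ← h1]
  exact Complex.exp_ne_zero _

end Coeff

/-! ### the rational function `TN` -/

/-- numerator of `TN` over `((w - L i) (w + L i)) ^ (2 N + 1)` -/
noncomputable def Num (N : ℕ) (P R : ℕ → ℝ) (L : ℝ) (w : ℂ) : ℂ :=
  ∑ i ∈ range (N + 1), (P i : ℂ) * (2 * i).factorial * (1 / (2 * Complex.I)) *
      ((w - L * Complex.I) ^ (2 * N - 2 * i) * (w + L * Complex.I) ^ (2 * N + 1) -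
        (w - L * Complex.I) ^ (2 * N + 1) * (w + L * Complex.I) ^ (2 * N - 2 * i)) +
  ∑ i ∈ range N, (R i : ℂ) * (2 * i + 1).factorial * (1 / 2) *
      ((w - L * Complex.I) ^ (2 * N - 1 - 2 * i) * (w + L * Complex.I) ^ (2 * N + 1) +
        (w - L * Complex.I) ^ (2 * N + 1) * (w + L * Complex.I) ^ (2 * N - 1 - 2 * i))

lemma pw {x y : ℂ} (hx : x ≠ 0) (hy : y ≠ 0) {a b n : ℕ} (h : a + b = n) :
    x ^ a * y ^ n / (x * y) ^ n = 1 / x ^ b := by
  have h1 : x ^ n = x ^ a * x ^ b := by rw [← h, pow_add]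
  rw [mul_pow, h1]
  have := pow_ne_zero a hx
  have := pow_ne_zero b hx
  have := pow_ne_zero n hy
  field_simp

lemma pw' {x y : ℂ} (hx : x ≠ 0) (hy : y ≠ 0) {a b n : ℕ} (h : a + b = n) :
    x ^ n * y ^ a / (x * y) ^ n = 1 / y ^ b := by
  rw [mul_comm (x ^ n), mul_comm x y]
  exact pw hy hx h

lemma TN_eq {N : ℕ} {P R : ℕ → ℝ} {L : ℝ} {w : ℂ} (hx : w - L * Complex.I ≠ 0) (hy : w + L * Complex.I ≠ 0) :
    TN N P R L w = Num N P R L w / ((w - L * Complex.I) * (w + L * Complex.I)) ^ (2 * N + 1) := by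
  unfold TN Num
  rw [add_div, Finset.sum_div, Finset.sum_div]
  congr 1
  · refine Finset.sum_congr rfl fun i hi => ?_
    rw [Finset.mem_range] at hi
    rw [mul_div_assoc, sub_div, pw hx hy (show 2 * N - 2 * i + (2 * i + 1) = 2 * N + 1 by omega),
      pw' hx hy (show 2 * N - 2 * i + (2 * i + 1) = 2 * N + 1 by omega)]
  · refine Finset.sum_congr rfl fun i hi => ?_
    rw [Finset.mem_range] at hi
    rw [mul_div_assoc, add_div, pw hx hy (show 2 * N - 1 - 2 * i + (2 * i + 2) = 2 * N + 1 by omega),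
      pw' hx hy (show 2 * N - 1 - 2 * i + (2 * i + 2) = 2 * N + 1 by omega)]

lemma Num_neg (N : ℕ) (P R : ℕ → ℝ) (L : ℝ) (w : ℂ) : Num N P R L (-w) = Num N P R L w := by
  unfold Num
  have e1 : -w - L * Complex.I = -(w + L * Complex.I) := by ring
  have e2 : -w + L * Complex.I = -(w - L * Complex.I) := by ring
  rw [e1, e2]
  have o1 : Odd (2 * N + 1) := ⟨N, rfl⟩
  congr 1
  · refine Finset.sum_congr rfl fun i hi => ?_
    rw [Finset.mem_range] at hi
    have ev : Even (2 * N - 2 * i) := ⟨N - i, by omega⟩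
    rw [ev.neg_pow, ev.neg_pow, o1.neg_pow, o1.neg_pow]
    ring
  · refine Finset.sum_congr rfl fun i hi => ?_
    rw [Finset.mem_range] at hi
    have ev : Odd (2 * N - 1 - 2 * i) := ⟨N - 1 - i, by omega⟩
    rw [ev.neg_pow, ev.neg_pow, o1.neg_pow, o1.neg_pow]
    ring

lemma Num_conj (N : ℕ) (P R : ℕ → ℝ) (L : ℝ) (w : ℂ) :
    Num N P R L (starRingEnd ℂ w) = starRingEnd ℂ (Num N P R L w) := by
  unfold Num
  rw [map_add, map_sum, map_sum]
  congr 1
  · refine Finset.sum_congr rfl fun i _ => ?_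
    simp only [map_mul, map_sub, map_add, map_pow, Complex.conj_ofReal, Complex.conj_I, map_div₀, map_one,
      Complex.conj_ofNat, Complex.conj_natCast]
    have e1 : starRingEnd ℂ w - L * -Complex.I = starRingEnd ℂ w + L * Complex.I := by ring
    have e2 : starRingEnd ℂ w + L * -Complex.I = starRingEnd ℂ w - L * Complex.I := by ring
    have e3 : (1 : ℂ) / (2 * -Complex.I) = -(1 / (2 * Complex.I)) := by
      rw [mul_neg, div_neg]
    rw [e1, e2, e3]
    ring
  · refine Finset.sum_congr rfl fun i _ => ?_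
    simp only [map_mul, map_sub, map_add, map_pow, Complex.conj_ofReal, Complex.conj_I, map_div₀, map_one,
      Complex.conj_ofNat, Complex.conj_natCast]
    have e1 : starRingEnd ℂ w - L * -Complex.I = starRingEnd ℂ w + L * Complex.I := by ring
    have e2 : starRingEnd ℂ w + L * -Complex.I = starRingEnd ℂ w - L * Complex.I := by ring
    rw [e1, e2]
    ring

lemma Num_ne {N : ℕ} {P R : ℕ → ℝ} {L : ℝ} (hP : P N ≠ 0) (hL : L ≠ 0) :
    Num N P R L (L * Complex.I) ≠ 0 := by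
  have hLc : (L : ℂ) ≠ 0 := by exact_mod_cast hL
  have h1 : Num N P R L (L * Complex.I) = (P N : ℂ) * (2 * N).factorial * (1 / (2 * Complex.I)) *
      (L * Complex.I + L * Complex.I) ^ (2 * N + 1) := by
    unfold Num
    rw [sub_self]
    have hz : ∑ i ∈ range N, (R i : ℂ) * (2 * i + 1).factorial * (1 / 2) *
      ((0 : ℂ) ^ (2 * N - 1 - 2 * i) * (L * Complex.I + L * Complex.I) ^ (2 * N + 1) +
        (0 : ℂ) ^ (2 * N + 1) * (L * Complex.I + L * Complex.I) ^ (2 * N - 1 - 2 * i)) = 0 := by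
      refine Finset.sum_eq_zero fun i hi => ?_
      rw [Finset.mem_range] at hi
      rw [zero_pow (by omega : 2 * N - 1 - 2 * i ≠ 0), zero_pow (by omega : 2 * N + 1 ≠ 0)]
      ring
    rw [hz, add_zero, Finset.sum_range_succ]
    have hz2 : ∑ i ∈ range N, (P i : ℂ) * (2 * i).factorial * (1 / (2 * Complex.I)) *
      ((0 : ℂ) ^ (2 * N - 2 * i) * (L * Complex.I + L * Complex.I) ^ (2 * N + 1) -
        (0 : ℂ) ^ (2 * N + 1) * (L * Complex.I + L * Complex.I) ^ (2 * N - 2 * i)) = 0 := by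
      refine Finset.sum_eq_zero fun i hi => ?_
      rw [Finset.mem_range] at hi
      rw [zero_pow (by omega : 2 * N - 2 * i ≠ 0), zero_pow (by omega : 2 * N + 1 ≠ 0)]
      ring
    rw [hz2, zero_add, Nat.sub_self, pow_zero, zero_pow (by omega : 2 * N + 1 ≠ 0)]
    ring
  rw [h1]
  have hf : ((2 * N).factorial : ℂ) ≠ 0 := by exact_mod_cast Nat.factorial_ne_zero _
  have hPc : (P N : ℂ) ≠ 0 := by exact_mod_cast hP
  have h2 : (L * Complex.I + L * Complex.I : ℂ) ≠ 0 := by
    rw [← two_mul]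
    exact mul_ne_zero two_ne_zero (mul_ne_zero hLc Complex.I_ne_zero)
  refine mul_ne_zero (mul_ne_zero (mul_ne_zero hPc hf) ?_) (pow_ne_zero _ h2)
  exact one_div_ne_zero (mul_ne_zero two_ne_zero Complex.I_ne_zero)

lemma Num_diff (N : ℕ) (P R : ℕ → ℝ) (L : ℝ) : Differentiable ℂ (Num N P R L) := by
  unfold Num
  fun_prop

/-! ### growth -/

lemma grAdd {f g : ℂ → ℂ} (hf : Gr f) (hg : Gr g) : Gr (fun s => f s + g s) := by
  have h1 := hf.sub ((Gr.const (-1)).mul hg)
  refine (iff_of_eq (congrArg Gr ?_)).1 h1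
  funext s
  ring

lemma grPow {f : ℂ → ℂ} (hf : Gr f) (n : ℕ) : Gr (fun s => f s ^ n) := by
  induction n with
  | zero =>
    simp only [pow_zero]
    exact Gr.const 1
  | succ n ih =>
    simp only [pow_succ]
    exact ih.mul hf

lemma grId : Gr (fun s => s) := by
  refine ⟨1, zero_le_one, fun s => ?_⟩
  have h1 : ‖s‖ ≤ Real.exp ‖s‖ := by linarith [Real.add_one_le_exp ‖s‖]
  refine h1.trans (Real.exp_le_exp.2 ?_)
  have := norm_nonneg s
  nlinarith

lemma grSum {ι : Type} (S : Finset ι) {f : ι → ℂ → ℂ} (h : ∀ i ∈ S, Gr (f i)) :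
    Gr (fun s => ∑ i ∈ S, f i s) := by
  classical
  induction S using Finset.induction_on with
  | empty =>
    simp only [Finset.sum_empty]
    exact Gr.const 0
  | insert i S hi ih =>
    simp only [Finset.sum_insert hi]
    exact grAdd (h i (Finset.mem_insert_self i S)) (ih fun j hj => h j (Finset.mem_insert_of_mem hj))

lemma Num_gr (N : ℕ) (P R : ℕ → ℝ) (L : ℝ) : Gr (Num N P R L) := by
  have hm : Gr (fun w : ℂ => w - L * Complex.I) := grId.sub (Gr.const _)
  have hp : Gr (fun w : ℂ => w + L * Complex.I) := grAdd grId (Gr.const _)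
  unfold Num
  refine grAdd (grSum _ fun i _ => ?_) (grSum _ fun i _ => ?_)
  · exact (Gr.const _).mul (((grPow hm _).mul (grPow hp _)).sub ((grPow hm _).mul (grPow hp _)))
  · exact (Gr.const _).mul (grAdd ((grPow hm _).mul (grPow hp _)) ((grPow hm _).mul (grPow hp _)))

end Pool.Agent.H600R3.PO
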