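import Pool.Agent.H600R3.PO.HW1

set_option autoImplicit false

/-!
# POLEORDER, wrapper part 2: analytic properties of `ζ ^ k · H`
-/

namespace Pool.Agent.H600R3.PO

open Finset Pool.Agent.H469R10.HO Pool.Agent.H902R3.I469 Pool.Agent.H902R3.PZ Pool.Agent.H336R4.PF
open Pool.Agent.H180R3.PO Filter Topology

/-- everything needed -/
structure Dt where
  m : ℕ
  N : ℕ
  v : ℕ
  k : ℕ
  c : ℝ
  γ : ℝ
  C : ℝ
  P : ℕ → ℝ
  R : ℕ → ℝ
  β : ℕ → ℝ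
  α : ℕ → ℝ
  Λ : ℂ → ℂ
  Z : ℂ → ℂ
  Y : ℂ → ℂ
  hv : 1 ≤ v
  hk2 : 2 ≤ k
  hkv : k * v = 2 * N + v
  hkd : 2 * lamOf m < k
  hc : 0 < c
  hγ : 0 < γ
  hC : C ≠ 0
  hPN : P N ≠ 0
  hβ : ∀ p : ℕ, p.Prime → |β p| ≤ (p : ℝ) ^ (-(1 / 2 + m / lamOf m))
  hα : ∀ n : ℕ, 1 ≤ n → α n = if Squarefree n then ∏ p ∈ n.primeFactors, β p else 0
  hsum : Summable (fun n => |α n|)
  hΛd : Differentiable ℂ Λ
  hΛfe : ∀ z : ℂ, Λ (2 * m + 2 - z) = Λ z
  hΛc : ∀ z : ℂ, Λ ((starRingEnd ℂ) z) = (starRingEnd ℂ) (Λ z)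
  hΛs : ∀ z : ℂ, 2 * (m : ℝ) + 2 < z.re →
    HasSum (fun n : ℕ => if n = 0 then 0 else ((α n * uu c (lamOf m) n ^ (2 * m + 1) : ℝ) : ℂ) *
      ((uu c (lamOf m) n : ℝ) : ℂ) ^ (-z))
      ((Λ z - (C : ℂ) * TN N P R (lamOf m * γ) (z - (m + 1))) * (Complex.Gamma z)⁻¹)
  hΛg : ∃ C : ℝ, ∀ z : ℂ, ‖Λ z‖ ≤ Real.exp (C * (1 + ‖z‖) ^ 2)
  hZd : Differentiable ℂ Z
  hYd : Differentiable ℂ Y
  hZ : ∀ s : ℂ, s ≠ 1 → Z s = (s - 1) * riemannZeta s
  hZ1 : Z 1 = 1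
  hZY : ∀ s : ℂ, Z s = ((s - 1 / 2) ^ 2 + (γ : ℂ) ^ 2) ^ v * Y s
  hYρ : Y (1 / 2 + γ * Complex.I) ≠ 0
  hZg : ∃ C : ℝ, ∀ s : ℂ, ‖Z s‖ ≤ Real.exp (C * (1 + ‖s‖) ^ 2)
  hYg : ∃ C : ℝ, ∀ s : ℂ, ‖Y s‖ ≤ Real.exp (C * (1 + ‖s‖) ^ 2)

namespace Dt

variable (D : Dt)

/-- the degree parameter -/
noncomputable def lam : ℝ := lamOf D.m

/-- `(s - ρ) (s - conj ρ)` -/
noncomputable def dd (s : ℂ) : ℂ := (s - 1 / 2) ^ 2 + (D.γ : ℂ) ^ 2

/-- change of variables -/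
noncomputable def zz (s : ℂ) : ℂ := (D.lam : ℂ) * s + 1 / 6

/-- centred variable -/
noncomputable def ww (s : ℂ) : ℂ := (D.lam : ℂ) * (s - 1 / 2)

/-- numerator of the polar term -/
noncomputable def Nu (s : ℂ) : ℂ := Num D.N D.P D.R (D.lam * D.γ) (D.ww s)

/-- constant -/
noncomputable def kk : ℂ := (D.C : ℂ) / ((D.lam : ℂ) ^ 2) ^ (2 * D.N + 1)

/-- elementary factor -/
noncomputable def E (s : ℂ) : ℂ :=
  Complex.exp ((Real.log D.c : ℂ) * (D.zz s - 2 * D.m - 1)) * (Complex.Gamma (D.zz s))⁻¹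

/-- `(s - 1) ^ k F(s)` -/
noncomputable def G (s : ℂ) : ℂ :=
  D.E s * (D.Z s ^ D.k * D.Λ (D.zz s) - D.kk * D.dd s ^ (D.v - 1) * D.Y s ^ D.k * D.Nu s)

/-- the meromorphic completed function of `H` -/
noncomputable def Λ' (z : ℂ) : ℂ := D.Λ z - (D.C : ℂ) * TN D.N D.P D.R (D.lam * D.γ) (z - (D.m + 1))

/-- `H` -/
noncomputable def H (s : ℂ) : ℂ := D.E s * D.Λ' (D.zz s)

lemma lam_pos' : 0 < D.lam := lam_pos D.m

lemma lam_ne : (D.lam : ℂ) ≠ 0 := by exact_mod_cast D.lam_pos'.ne'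

lemma kk_ne : D.kk ≠ 0 := by
  unfold kk
  refine div_ne_zero (by exact_mod_cast D.hC) (pow_ne_zero _ (pow_ne_zero _ D.lam_ne))

lemma zz_sub (s : ℂ) : D.zz s - (D.m + 1) = D.ww s := by
  unfold zz ww lam lamOf
  push_cast
  ring

lemma prod_eq (s : ℂ) : (D.ww s - ((D.lam * D.γ : ℝ) : ℂ) * Complex.I) *
    (D.ww s + ((D.lam * D.γ : ℝ) : ℂ) * Complex.I) = (D.lam : ℂ) ^ 2 * D.dd s := by
  unfold ww dd
  push_cast
  linear_combination (-((D.lam : ℂ) * D.γ) ^ 2) * Complex.I_sq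

lemma Λ'_eq {s : ℂ} (hd : D.dd s ≠ 0) : D.Λ' (D.zz s) = D.Λ (D.zz s) - D.kk * D.Nu s / D.dd s ^ (2 * D.N + 1) := by
  unfold Λ'
  rw [D.zz_sub]
  have h0 : (D.ww s - ((D.lam * D.γ : ℝ) : ℂ) * Complex.I) *
    (D.ww s + ((D.lam * D.γ : ℝ) : ℂ) * Complex.I) ≠ 0 := by
    rw [D.prod_eq]
    exact mul_ne_zero (pow_ne_zero _ D.lam_ne) hd
  have h1 := left_ne_zero_of_mul h0
  have h2 := right_ne_zero_of_mul h0
  rw [TN_eq h1 h2, D.prod_eq]
  unfold kk Nu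
  rw [mul_pow]
  congr 1
  have h3 := pow_ne_zero (2 * D.N + 1) hd
  have h4 := pow_ne_zero (2 * D.N + 1) (pow_ne_zero 2 D.lam_ne)
  field_simp

lemma H_eq_FF (s : ℂ) : D.H s = FF D.m D.c D.Λ' s := by
  unfold H FF E zz lam
  ring

lemma G_eq (s : ℂ) : D.G s = D.E s * D.Y s ^ D.k *
    (D.dd s ^ (D.v * D.k) * D.Λ (D.zz s) - D.kk * D.dd s ^ (D.v - 1) * D.Nu s) := by
  unfold G
  rw [D.hZY s]
  change D.E s * ((D.dd s ^ D.v * D.Y s) ^ D.k * D.Λ (D.zz s) - _) = _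
  rw [mul_pow, ← pow_mul]
  ring

lemma expo : D.v * D.k = (D.v - 1) + (2 * D.N + 1) := by
  have h1 := D.hkv
  have h2 := D.hv
  rw [mul_comm] at h1
  omega

lemma G_eq_H {s : ℂ} (hd : D.dd s ≠ 0) : D.G s = D.Z s ^ D.k * D.H s := by
  unfold H
  rw [D.G_eq, D.Λ'_eq hd]
  have h1 : D.Z s = D.dd s ^ D.v * D.Y s := D.hZY s
  have h3 := pow_ne_zero (2 * D.N + 1) hd
  rw [h1, mul_pow, ← pow_mul, D.expo, pow_add]
  field_simp

lemma zz_diff : Differentiable ℂ D.zz := by unfold zz; fun_prop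

lemma dd_diff : Differentiable ℂ D.dd := by unfold dd; fun_prop

lemma Nu_diff : Differentiable ℂ D.Nu := by
  have h1 : Differentiable ℂ D.ww := by unfold ww; fun_prop
  exact (Num_diff D.N D.P D.R (D.lam * D.γ)).comp h1

lemma E_diff : Differentiable ℂ D.E := by
  unfold E
  have h1 := D.zz_diff
  have h2 : Differentiable ℂ (fun z : ℂ => (Complex.Gamma z)⁻¹) :=
    Complex.differentiable_one_div_Gamma
  have h5 : Differentiable ℂ (fun s : ℂ => Complex.exp ((Real.log D.c : ℂ) *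
    (D.zz s - 2 * D.m - 1))) := by
    have := h1
    fun_prop
  exact h5.mul (h2.comp h1)

lemma G_diff : Differentiable ℂ D.G := by
  unfold G
  have h1 := D.E_diff
  have h2 := D.hΛd.comp D.zz_diff
  exact h1.mul (((D.hZd.pow D.k).mul h2).sub
    (((D.dd_diff.pow (D.v - 1)).const_mul D.kk |>.mul (D.hYd.pow D.k)).mul D.Nu_diff))

lemma dd_ne {s : ℂ} (hs : 1 / 2 < s.re) : D.dd s ≠ 0 := by
  intro h
  have h1 : D.dd s = ((s - 1 / 2) - D.γ * Complex.I) * ((s - 1 / 2) + D.γ * Complex.I) := by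
    unfold dd
    linear_combination ((D.γ : ℂ) ^ 2) * Complex.I_sq
  rw [h1] at h
  rcases mul_eq_zero.1 h with h | h
  · have := congrArg Complex.re h
    simp at this
    norm_num at this
    linarith
  · have := congrArg Complex.re h
    simp at this
    norm_num at this
    linarith

lemma H_analytic : AnalyticOnNhd ℂ D.H {s : ℂ | 1 / 2 < s.re} := by
  have ho : IsOpen {s : ℂ | 1 / 2 < s.re} := isOpen_lt continuous_const Complex.continuous_re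
  have hd : DifferentiableOn ℂ D.H {s : ℂ | 1 / 2 < s.re} := by
    have h1 : DifferentiableOn ℂ (fun s : ℂ => D.E s * (D.Λ (D.zz s) -
        D.kk * D.Nu s / D.dd s ^ (2 * D.N + 1))) {s : ℂ | 1 / 2 < s.re} := by
      intro s hs
      have h0 : D.dd s ≠ 0 := D.dd_ne hs
      have a1 := D.E_diff s
      have a2 := (D.hΛd.comp D.zz_diff) s
      have a3 := D.dd_diff s
      have a4 := D.Nu_diff s
      exact (a1.mul (a2.sub ((a4.const_mul _).div (a3.pow _) (pow_ne_zero _ h0)))).differentiableWithinAt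
    refine h1.congr fun s hs => ?_
    unfold H
    rw [D.Λ'_eq (D.dd_ne hs)]
  exact hd.analyticOnNhd ho

lemma H_series {s : ℂ} (hs : kap D.m < s.re) : D.H s = LSeries (ff D.m D.β) s := by
  have hU : IsPreconnected {z : ℂ | kap D.m < z.re} := (convex_halfSpace_re_gt _).isPreconnected
  have hab : LSeries.abscissaOfAbsConv (ff D.m D.β) ≤ (kap D.m : ℝ) := by
    have := (summable_ff2 (m := D.m) D.hα D.hsum (s := (kap D.m : ℂ)) (by simp)).abscissaOfAbsConv_le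
    simpa using this
  have h1 : AnalyticOnNhd ℂ D.H {z : ℂ | kap D.m < z.re} :=
    D.H_analytic.mono fun z hz => by
      have := kap_ge2 D.m
      have hz : kap D.m < z.re := hz
      show 1 / 2 < z.re
      linarith
  have h2 : AnalyticOnNhd ℂ (LSeries (ff D.m D.β)) {z : ℂ | kap D.m < z.re} := by
    apply (LSeries_analyticOnNhd (ff D.m D.β)).mono
    intro z hz
    refine lt_of_le_of_lt hab ?_
    exact_mod_cast hz
  have h3 : D.H =ᶠ[nhds (3 : ℂ)] LSeries (ff D.m D.β) := by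
    have ho : IsOpen {z : ℂ | 2 < z.re} := isOpen_lt continuous_const Complex.continuous_re
    have hm : (3 : ℂ) ∈ {z : ℂ | 2 < z.re} := by
      change (2 : ℝ) < (3 : ℂ).re
      norm_num
    filter_upwards [ho.mem_nhds hm] with z hz
    rw [D.H_eq_FF]
    apply FF_series D.hc D.hα
    apply D.hΛs
    have hz : 2 < z.re := hz
    have hm0 : (0 : ℝ) ≤ D.m := Nat.cast_nonneg _
    have h1 : (((lamOf D.m : ℝ) : ℂ) * z + 1 / 6).re = lamOf D.m * z.re + 1 / 6 := by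
      simp
    rw [h1]
    have h2 : lamOf D.m * 2 ≤ lamOf D.m * z.re := by
      apply mul_le_mul_of_nonneg_left hz.le (lam_pos D.m).le
    have h3 : lamOf D.m = 2 * D.m + 2 - 1 / 3 := rfl
    nlinarith
  have h4 := h1.eqOn_of_preconnected_of_eventuallyEq h2 hU (z₀ := (3 : ℂ)) (by
    change kap D.m < (3 : ℂ).re
    have := kap_lt2 D.m
    norm_num
    linarith) h3
  exact h4 hs

lemma G_series {s : ℂ} (hs : 1 < s.re) : D.G s = (s - 1) ^ D.k * LSeries (ak D.m D.β D.k) s := by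
  have hs1 : s ≠ 1 := by
    intro h
    rw [h] at hs
    simp at hs
  rw [LSeries_ak D.hβ D.k hs, ← D.H_series (by linarith [kap_lt2 D.m]),
    D.G_eq_H (D.dd_ne (by linarith)), D.hZ s hs1, mul_pow]
  ring

lemma G_one : D.G 1 = LSeries (ff D.m D.β) 1 := by
  rw [D.G_eq_H (D.dd_ne (by norm_num)), D.hZ1, one_pow, one_mul]
  exact D.H_series (by simpa using kap_lt2 D.m)

lemma G_one_ne : D.G 1 ≠ 0 := by
  rw [D.G_one]
  exact H_one_ne2 D.hβ D.hα D.hsum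

lemma G_gr : Gr D.G := by
  have h1 : Gr (fun s => Complex.exp ((Real.log D.c : ℂ) * D.lam * s +
      (Real.log D.c : ℂ) * (1 / 6 - 2 * D.m - 1))) := Gr.exp_affine _ _
  have h2 : Gr (fun s => (Complex.Gamma ((D.lam : ℂ) * s + 1 / 6))⁻¹) := Gr.inv_Gamma.comp_affine _ _
  have h3 : Gr (fun s => D.Λ ((D.lam : ℂ) * s + 1 / 6)) := (Gr.of D.hΛg).comp_affine _ _
  have h4 : Gr D.Z := Gr.of D.hZg
  have h5 : Gr D.Y := Gr.of D.hYg
  have h6 : Gr D.dd := by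
    unfold dd
    exact grAdd (grPow (grId.sub (Gr.const _)) 2) (Gr.const _)
  have h7 : Gr (fun s => Num D.N D.P D.R (D.lam * D.γ) ((D.lam : ℂ) * s + (-(D.lam : ℂ) * (1 / 2)))) :=
    (Num_gr D.N D.P D.R (D.lam * D.γ)).comp_affine _ _
  have h8 := (h1.mul h2).mul (((grPow h4 D.k).mul h3).sub
    ((((Gr.const D.kk).mul (grPow h6 (D.v - 1))).mul (grPow h5 D.k)).mul h7))
  refine (iff_of_eq (congrArg Gr ?_)).1 h8
  funext s
  unfold G E Nu ww zz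
  have e1 : (D.lam : ℂ) * s + -(D.lam : ℂ) * (1 / 2) = (D.lam : ℂ) * (s - 1 / 2) := by ring
  have e2 : (Real.log D.c : ℂ) * D.lam * s + (Real.log D.c : ℂ) * (1 / 6 - 2 * D.m - 1) =
    (Real.log D.c : ℂ) * ((D.lam : ℂ) * s + 1 / 6 - 2 * D.m - 1) := by ring
  rw [e1, e2]

theorem cont : Cont (ak D.m D.β D.k) D.k D.G :=
  ⟨D.G_diff, D.G_gr.order, fun _ hs => D.G_series hs⟩

end Dt

end Pool.Agent.H600R3.PO
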