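import Pool.Agent.H600R3.PO.HW2

set_option autoImplicit false

/-!
# POLEORDER, wrapper part 3: functional equation of `ζ ^ k · H`, the pole of `F / ζ`, task HW
-/

namespace Pool.Agent.H600R3.PO

open Finset Pool.Agent.H469R10.HO Pool.Agent.H902R3.I469 Pool.Agent.H902R3.PZ Pool.Agent.H336R4.PF
open Pool.Agent.H180R3.PO Filter Topology

namespace Dt

variable (D : Dt)

lemma Z_conj (s : ℂ) : D.Z (starRingEnd ℂ s) = starRingEnd ℂ (D.Z s) := by
  by_cases h : s = 1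
  · subst h; rw [map_one, D.hZ1, map_one]
  · have h' : starRingEnd ℂ s ≠ 1 := by
      intro h1
      apply h
      have := congrArg (starRingEnd ℂ) h1
      rwa [Complex.conj_conj, map_one] at this
    rw [D.hZ _ h', D.hZ _ h, riemannZeta_conj, map_mul, map_sub, map_one]

lemma dd_conj (s : ℂ) : D.dd (starRingEnd ℂ s) = starRingEnd ℂ (D.dd s) := by
  unfold dd
  rw [map_add, map_pow, map_pow, map_sub, Complex.conj_ofReal, map_div₀, map_one, Complex.conj_ofNat]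

lemma zz_conj (s : ℂ) : D.zz (starRingEnd ℂ s) = starRingEnd ℂ (D.zz s) := by
  unfold zz
  rw [map_add, map_mul, Complex.conj_ofReal, map_div₀, map_one, Complex.conj_ofNat]

lemma Nu_conj (s : ℂ) : D.Nu (starRingEnd ℂ s) = starRingEnd ℂ (D.Nu s) := by
  unfold Nu ww
  rw [← Num_conj]
  congr 1
  rw [map_mul, map_sub, Complex.conj_ofReal, map_div₀, map_one, Complex.conj_ofNat]

lemma kk_conj : starRingEnd ℂ D.kk = D.kk := by
  unfold kk
  rw [map_div₀, map_pow, map_pow, Complex.conj_ofReal, Complex.conj_ofReal]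

/-- the set where `dd ≠ 0` -/
lemma dd_eventually (s : ℂ) : ∀ᶠ z in 𝓝[≠] s, D.dd z ≠ 0 := by
  have ha : AnalyticAt ℂ D.dd s := D.dd_diff.analyticAt s
  rcases ha.eventually_eq_zero_or_eventually_ne_zero with h | h
  · exfalso
    have h1 : AnalyticOnNhd ℂ D.dd Set.univ := fun z _ => D.dd_diff.analyticAt z
    have h2 := h1.eqOn_zero_of_preconnected_of_eventuallyEq_zero isPreconnected_univ (Set.mem_univ s) h
    have h3 := h2 (Set.mem_univ (1 : ℂ))
    exact D.dd_ne (s := 1) (by norm_num) h3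
  · exact h

lemma Y_conj (s : ℂ) : D.Y (starRingEnd ℂ s) = starRingEnd ℂ (D.Y s) := by
  have hc1 : Continuous fun s : ℂ => D.Y (starRingEnd ℂ s) := D.hYd.continuous.comp Complex.continuous_conj
  have hc2 : Continuous fun s : ℂ => starRingEnd ℂ (D.Y s) := Complex.continuous_conj.comp D.hYd.continuous
  have h1 : Tendsto (fun s : ℂ => D.Y (starRingEnd ℂ s)) (𝓝[≠] s) (𝓝 (D.Y (starRingEnd ℂ s))) :=
    (hc1.tendsto s).mono_left nhdsWithin_le_nhds
  have h2 : Tendsto (fun s : ℂ => starRingEnd ℂ (D.Y s)) (𝓝[≠] s) (𝓝 (starRingEnd ℂ (D.Y s))) :=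
    (hc2.tendsto s).mono_left nhdsWithin_le_nhds
  refine tendsto_nhds_unique_of_eventuallyEq h1 h2 ?_
  filter_upwards [D.dd_eventually s] with z hz
  have h3 := D.Z_conj z
  rw [D.hZY, D.hZY] at h3
  change D.dd (starRingEnd ℂ z) ^ D.v * D.Y (starRingEnd ℂ z) = starRingEnd ℂ (D.dd z ^ D.v * D.Y z) at h3
  rw [D.dd_conj, map_mul, map_pow] at h3
  refine mul_left_cancel₀ (pow_ne_zero D.v ?_) h3
  simpa using hz

/-- the symmetric function with the zeros removed -/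
noncomputable def X (s : ℂ) : ℂ := Complex.Gammaℝ s * D.Y s / (s - 1)

lemma gr_ne' {s : ℂ} (hs : 0 < s.re) : Complex.Gammaℝ s ≠ 0 := Complex.Gammaℝ_ne_zero_of_re_pos hs

lemma half_ne {s : ℂ} (hs : 0 < s.re) : ∀ n : ℕ, (1 / 2 : ℂ) * s ≠ -(n : ℂ) := by
  intro n hn
  have h1 := congrArg Complex.re hn
  have h2 : ((1 / 2 : ℂ) * s).re = 1 / 2 * s.re := by
    have : (1 / 2 : ℂ) = ((1 / 2 : ℝ) : ℂ) := by push_cast; rfl
    rw [this, Complex.re_ofReal_mul]
  rw [h2] at h1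
  simp at h1
  have : (0 : ℝ) ≤ n := Nat.cast_nonneg n
  linarith

lemma X_cont {s : ℂ} (hs0 : 0 < s.re) (hs1 : s ≠ 1) : ContinuousAt D.X s := by
  unfold X
  have h1 := Dat.gr_cont (half_ne hs0)
  have h2 := D.hYd.continuous.continuousAt (x := s)
  exact (h1.mul h2).div (by fun_prop) (sub_ne_zero.2 hs1)

lemma X_eq {s : ℂ} (hs0 : 0 < s.re) (hs1 : s ≠ 1) (hd : D.dd s ≠ 0) :
    D.X s = completedRiemannZeta s / D.dd s ^ D.v := by
  have hs0' : s ≠ 0 := by rintro rfl; simp at hs0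
  have hg := gr_ne' hs0
  have h1 := riemannZeta_def_of_ne_zero hs0'
  have h2 := D.hZ s hs1
  rw [D.hZY s] at h2
  change D.dd s ^ D.v * D.Y s = _ at h2
  have h3 : s - 1 ≠ 0 := sub_ne_zero.2 hs1
  have hd' := pow_ne_zero D.v hd
  have h4 : D.Y s = (s - 1) * riemannZeta s / D.dd s ^ D.v := by
    rw [← h2]; field_simp
  unfold X
  rw [h4, h1]
  field_simp

lemma dd_one_sub (s : ℂ) : D.dd (1 - s) = D.dd s := by
  unfold dd; ring

lemma X_one_sub {s : ℂ} (h0 : 0 < s.re) (h1 : s.re < 1) : D.X (1 - s) = D.X s := by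
  have hne : ∀ z : ℂ, z.re < 1 → z ≠ 1 := by rintro z hz rfl; simp at hz
  have h0' : 0 < (1 - s).re := by simp; linarith
  have h1' : (1 - s).re < 1 := by simp; linarith
  have hsub : ContinuousAt (fun z : ℂ => 1 - z) s := by fun_prop
  have hc1 : ContinuousAt D.X s := D.X_cont h0 (hne s h1)
  have hc2 : ContinuousAt (fun z => D.X (1 - z)) s :=
    ContinuousAt.comp (g := D.X) (D.X_cont h0' (hne _ h1')) hsub
  have t1 : Tendsto D.X (𝓝[≠] s) (𝓝 (D.X s)) := hc1.tendsto.mono_left nhdsWithin_le_nhds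
  have t2 : Tendsto (fun z => D.X (1 - z)) (𝓝[≠] s) (𝓝 (D.X (1 - s))) := hc2.tendsto.mono_left nhdsWithin_le_nhds
  refine tendsto_nhds_unique_of_eventuallyEq t2 t1 ?_
  have e1 : ∀ᶠ z in 𝓝[≠] s, 0 < z.re :=
    nhdsWithin_le_nhds ((isOpen_lt continuous_const Complex.continuous_re).mem_nhds h0)
  have e2 : ∀ᶠ z in 𝓝[≠] s, z.re < 1 :=
    nhdsWithin_le_nhds ((isOpen_lt Complex.continuous_re continuous_const).mem_nhds h1)
  filter_upwards [e1, e2, D.dd_eventually s] with z z1 z2 z5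
  have z1' : 0 < (1 - z).re := by simp; linarith
  have z2' : (1 - z).re < 1 := by simp; linarith
  rw [D.X_eq z1' (hne _ z2') (by rwa [D.dd_one_sub]), D.X_eq z1 (hne _ z2) z5, completedRiemannZeta_one_sub,
    D.dd_one_sub]

lemma gammaR_conj (s : ℂ) : Complex.Gammaℝ (starRingEnd ℂ s) = starRingEnd ℂ (Complex.Gammaℝ s) := by
  rw [Complex.Gammaℝ_def, Complex.Gammaℝ_def, map_mul, ← Complex.Gamma_conj, pow_eq_exp Real.pi_pos,
    pow_eq_exp Real.pi_pos, ← Complex.exp_conj]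
  simp only [map_mul, map_div₀, map_neg, Complex.conj_ofReal, Complex.conj_ofNat]

lemma X_conj (s : ℂ) : D.X (starRingEnd ℂ s) = starRingEnd ℂ (D.X s) := by
  unfold X
  rw [D.Y_conj, gammaR_conj, map_div₀, map_mul, map_sub, map_one]

/-- conductor -/
noncomputable def Q : ℝ := Real.exp (-((D.k : ℝ) * (1 / 2 * Real.log Real.pi) + D.lam * Real.log D.c))

lemma Q_pos : 0 < D.Q := Real.exp_pos _

lemma Q_pow (s : ℂ) : ((D.Q : ℝ) : ℂ) ^ s =
    Complex.exp (-((D.k : ℂ) * ((1 / 2 : ℂ) * Real.log Real.pi) + D.lam * Real.log D.c) * s) := by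
  unfold Q
  rw [pow_eq_exp (Real.exp_pos _), Real.log_exp]
  push_cast
  ring_nf

/-- the completed function -/
noncomputable def Ψ (s : ℂ) : ℂ :=
  Complex.exp ((Real.log D.c : ℂ) * (1 / 6 - 2 * D.m - 1)) * (D.X s ^ D.k *
    (D.dd s ^ (D.v * D.k) * D.Λ (D.zz s) - D.kk * D.dd s ^ (D.v - 1) * D.Nu s))

lemma zz_re {s : ℂ} (hs : 0 < s.re) : 0 < (D.zz s).re := by
  have h := D.lam_pos'
  unfold zz
  have : ((D.lam : ℂ) * s + 1 / 6).re = D.lam * s.re + 1 / 6 := by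
    rw [Complex.add_re, Complex.re_ofReal_mul]
    norm_num
  rw [this]
  positivity

lemma completed {s : ℂ} (hs : 0 < s.re) :
    ((D.Q : ℝ) : ℂ) ^ s * (Complex.Gamma ((D.lam : ℂ) * s + 1 / 6) * Complex.Gamma (1 / 2 * s) ^ D.k) *
      (D.G s / (s - 1) ^ D.k) = D.Ψ s := by
  have hG : Complex.Gamma ((D.lam : ℂ) * s + 1 / 6) ≠ 0 := Complex.Gamma_ne_zero_of_re_pos (D.zz_re hs)
  rw [D.G_eq, D.Q_pow]
  unfold Ψ X E
  rw [Complex.Gammaℝ_def]
  have hpi : (Real.pi : ℂ) ^ (-s / 2) = Complex.exp (-((1 / 2 : ℂ) * Real.log Real.pi) * s) := by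
    rw [pow_eq_exp Real.pi_pos]
    congr 1
    ring
  have hs2 : s / 2 = 1 / 2 * s := by ring
  have h1 : D.zz s = (D.lam : ℂ) * s + 1 / 6 := rfl
  have h3 : Complex.exp (-((D.k : ℂ) * ((1 / 2 : ℂ) * Real.log Real.pi) + D.lam * Real.log D.c) * s) =
      Complex.exp (-((1 / 2 : ℂ) * Real.log Real.pi) * s) ^ D.k * Complex.exp (-(D.lam * Real.log D.c) * s) := by
    rw [← Complex.exp_nat_mul, ← Complex.exp_add]; congr 1; ring
  have h4 : Complex.exp ((Real.log D.c : ℂ) * ((D.lam : ℂ) * s + 1 / 6 - 2 * D.m - 1)) =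
      Complex.exp ((Real.log D.c : ℂ) * (1 / 6 - 2 * D.m - 1)) * Complex.exp ((D.lam * Real.log D.c) * s) := by
    rw [← Complex.exp_add]; congr 1; ring
  have h5 : Complex.exp ((D.lam * Real.log D.c) * s) * Complex.exp (-(D.lam * Real.log D.c) * s) = 1 := by
    rw [← Complex.exp_add]
    have : (D.lam * Real.log D.c : ℂ) * s + -(D.lam * Real.log D.c) * s = 0 := by ring
    rw [this, Complex.exp_zero]
  rw [hpi, hs2, h1, h3, h4]
  have h6 := inv_mul_cancel₀ hG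
  generalize D.dd s ^ (D.v * D.k) * D.Λ ((D.lam : ℂ) * s + 1 / 6) - D.kk * D.dd s ^ (D.v - 1) * D.Nu s = B at *
  generalize Complex.Gamma ((D.lam : ℂ) * s + 1 / 6) = g at *
  generalize Complex.exp ((D.lam * Real.log D.c : ℂ) * s) = e1 at *
  generalize Complex.exp (-(D.lam * Real.log D.c : ℂ) * s) = e2 at *
  generalize Complex.exp ((Real.log D.c : ℂ) * (1 / 6 - 2 * D.m - 1)) = e3 at *
  generalize Complex.exp (-((1 / 2 : ℂ) * Real.log Real.pi) * s) = e4 at *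
  generalize Complex.Gamma (1 / 2 * s) = g2 at *
  rw [div_pow, mul_pow, mul_pow]
  calc e4 ^ D.k * e2 * (g * g2 ^ D.k) * (e3 * e1 * g⁻¹ * D.Y s ^ D.k * B / (s - 1) ^ D.k)
      = e3 * (e1 * e2) * (g⁻¹ * g) * ((e4 ^ D.k * g2 ^ D.k * D.Y s ^ D.k / (s - 1) ^ D.k) * B) := by ring
    _ = _ := by rw [h5, h6]; ring

lemma zz_one_sub (s : ℂ) : D.zz (1 - s) = 2 * D.m + 2 - D.zz s := by
  unfold zz lam lamOf
  push_cast
  ring

lemma Nu_one_sub (s : ℂ) : D.Nu (1 - s) = D.Nu s := by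
  unfold Nu
  rw [← Num_neg]
  congr 1
  unfold ww
  ring

lemma Ψ_one_sub {s : ℂ} (h0 : 0 < s.re) (h1 : s.re < 1) : D.Ψ (1 - s) = D.Ψ s := by
  unfold Ψ
  rw [D.X_one_sub h0 h1, D.dd_one_sub, D.zz_one_sub, D.hΛfe, D.Nu_one_sub]

lemma Ψ_conj (s : ℂ) : D.Ψ (starRingEnd ℂ s) = starRingEnd ℂ (D.Ψ s) := by
  unfold Ψ
  have e1 : starRingEnd ℂ (Complex.exp ((Real.log D.c : ℂ) * (1 / 6 - 2 * D.m - 1))) =
      Complex.exp ((Real.log D.c : ℂ) * (1 / 6 - 2 * D.m - 1)) := by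
    rw [← Complex.exp_conj]
    congr 1
    simp only [map_mul, map_sub, map_div₀, map_one, Complex.conj_ofReal, Complex.conj_ofNat,
      Complex.conj_natCast]
  rw [D.X_conj, D.dd_conj, D.zz_conj, D.hΛc, D.Nu_conj, map_mul, map_mul, map_pow, map_sub, map_mul, map_mul,
    map_mul, map_pow, map_pow, D.kk_conj, e1]

/-- gamma factors -/
noncomputable def lams : Fin (D.k + 1) → ℝ := Fin.cons D.lam (fun _ => 1 / 2)

noncomputable def mus : Fin (D.k + 1) → ℂ := Fin.cons (1 / 6) (fun _ => 0)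

lemma prod_gamma (s : ℂ) : (∏ j, Complex.Gamma ((D.lams j : ℂ) * s + D.mus j)) =
    Complex.Gamma ((D.lam : ℂ) * s + 1 / 6) * Complex.Gamma (1 / 2 * s) ^ D.k := by
  rw [Fin.prod_univ_succ]
  unfold lams mus
  simp only [Fin.cons_zero, Fin.cons_succ, Finset.prod_const, Finset.card_univ, Fintype.card_fin, add_zero]
  push_cast
  rfl

lemma sum_lams : 2 * ∑ j, D.lams j = 2 * D.lam + D.k := by
  rw [Fin.sum_univ_succ]
  unfold lams
  simp only [Fin.cons_zero, Fin.cons_succ, Finset.sum_const, Finset.card_univ, Fintype.card_fin, nsmul_eq_mul]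
  ring

theorem fe : FE D.k D.G D.Q (D.k + 1) D.lams D.mus 1 := by
  refine ⟨?_, ?_, norm_one, ?_⟩
  · intro j
    unfold lams
    refine Fin.cases ?_ (fun i => ?_) j
    · simpa using D.lam_pos'
    · simp
  · intro j
    unfold mus
    refine Fin.cases ?_ (fun i => ?_) j
    · simp
    · simp
  · intro s h0 h1
    have c1 : (1 : ℂ) - starRingEnd ℂ s = starRingEnd ℂ (1 - s) := by rw [map_sub, map_one]
    have h0' : 0 < (1 - starRingEnd ℂ s).re := by simp; linarith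
    rw [D.prod_gamma, D.prod_gamma, D.completed h0, D.completed h0', one_mul, c1, D.Ψ_conj,
      Complex.conj_conj, D.Ψ_one_sub h0 h1]

theorem cls : Cls (ak D.m D.β D.k) (2 * D.lam + D.k) := by
  refine ⟨ak_one D.k, ak_ram D.hβ D.k, ⟨D.k, D.G, D.cont, D.Q, D.k + 1, D.lams, D.mus, 1, D.Q_pos, D.fe,
    D.sum_lams.symm⟩, ak_eul D.hβ D.k⟩

/-! ### the pole of `F / ζ` -/

/-- the zero -/
noncomputable def rho : ℂ := 1 / 2 + D.γ * Complex.I

lemma dd_rho : D.dd D.rho = 0 := by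
  unfold dd rho
  linear_combination ((D.γ : ℂ) ^ 2) * Complex.I_sq

lemma E_rho_ne : D.E D.rho ≠ 0 := by
  unfold E
  apply mul_ne_zero (Complex.exp_ne_zero _)
  apply inv_ne_zero
  apply Complex.Gamma_ne_zero_of_re_pos
  apply D.zz_re
  unfold rho
  simp

lemma rho_ne_one : D.rho ≠ 1 := by
  intro h
  have := congrArg Complex.re h
  unfold rho at this
  norm_num at this

lemma Nu_rho : D.Nu D.rho ≠ 0 := by
  unfold Nu ww rho
  have e : (D.lam : ℂ) * (1 / 2 + D.γ * Complex.I - 1 / 2) = ((D.lam * D.γ : ℝ) : ℂ) * Complex.I := by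
    push_cast; ring
  rw [e]
  exact Num_ne D.hPN (mul_pos D.lam_pos' D.hγ).ne'

/-- numerator of `G / ζ` over `dd` -/
noncomputable def A (s : ℂ) : ℂ := (s - 1) * (D.E s * (D.dd s * D.Z s ^ (D.k - 1) * D.Λ (D.zz s) -
  D.kk * D.Y s ^ (D.k - 1) * D.Nu s))

lemma A_cont : Continuous D.A := by
  unfold A
  have h1 := D.E_diff.continuous
  have h2 := (D.hΛd.comp D.zz_diff).continuous
  have h3 := D.dd_diff.continuous
  have h4 := D.hZd.continuous
  have h5 := D.hYd.continuous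
  have h6 := D.Nu_diff.continuous
  exact (continuous_id.sub continuous_const).mul (h1.mul (((h3.mul (h4.pow _)).mul h2).sub
    ((continuous_const.mul (h5.pow _)).mul h6)))

lemma A_rho : D.A D.rho ≠ 0 := by
  unfold A
  rw [D.dd_rho, zero_mul, zero_mul, zero_sub]
  exact mul_ne_zero (sub_ne_zero.2 D.rho_ne_one) (mul_ne_zero D.E_rho_ne (neg_ne_zero.2
    (mul_ne_zero (mul_ne_zero D.kk_ne (pow_ne_zero _ D.hYρ)) D.Nu_rho)))

lemma quot_eq {s : ℂ} (hs1 : s ≠ 1) (hd : D.dd s ≠ 0) (hY : D.Y s ≠ 0) :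
    D.G s / riemannZeta s = D.A s / D.dd s := by
  have hz := D.hZ s hs1
  have hZY : D.Z s = D.dd s ^ D.v * D.Y s := D.hZY s
  have h1 : s - 1 ≠ 0 := sub_ne_zero.2 hs1
  have hZ0 : D.Z s ≠ 0 := by
    rw [hZY]; exact mul_ne_zero (pow_ne_zero _ hd) hY
  have hζ : riemannZeta s ≠ 0 := by
    intro h
    rw [h, mul_zero] at hz
    exact hZ0 hz
  rw [div_eq_div_iff hζ hd]
  obtain ⟨k', hk'⟩ : ∃ k', D.k = k' + 1 := ⟨D.k - 1, by have := D.hk2; omega⟩
  obtain ⟨v', hv'⟩ : ∃ v', D.v = v' + 1 := ⟨D.v - 1, by have := D.hv; omega⟩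
  unfold G A
  rw [hk', hv', Nat.add_sub_cancel, Nat.add_sub_cancel]
  have e1 : D.Y s ^ (k' + 1) * D.dd s ^ v' * D.dd s = D.Y s ^ k' * D.Z s := by
    rw [hZY, hv']
    ring
  have e2 : (s - 1) * riemannZeta s = D.Z s := hz.symm
  calc D.E s * (D.Z s ^ (k' + 1) * D.Λ (D.zz s) - D.kk * D.dd s ^ v' * D.Y s ^ (k' + 1) * D.Nu s) * D.dd s
      = D.E s * (D.Z s ^ (k' + 1) * D.dd s * D.Λ (D.zz s) -
          D.kk * (D.Y s ^ (k' + 1) * D.dd s ^ v' * D.dd s) * D.Nu s) := by ring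
    _ = D.E s * (D.Z s ^ (k' + 1) * D.dd s * D.Λ (D.zz s) - D.kk * (D.Y s ^ k' * D.Z s) * D.Nu s) := by rw [e1]
    _ = D.Z s * (D.E s * (D.dd s * D.Z s ^ k' * D.Λ (D.zz s) - D.kk * D.Y s ^ k' * D.Nu s)) := by ring
    _ = _ := by rw [← e2]; ring

theorem tend : Tendsto (fun s => ‖D.G s / riemannZeta s‖) (𝓝[≠] D.rho) atTop := by
  have h1 : Tendsto (fun s => ‖D.A s‖) (𝓝[≠] D.rho) (𝓝 ‖D.A D.rho‖) :=
    (D.A_cont.norm.tendsto D.rho).mono_left nhdsWithin_le_nhds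
  have h2 : Tendsto (fun s => ‖D.dd s‖) (𝓝[≠] D.rho) (𝓝[>] 0) := by
    refine tendsto_nhdsWithin_iff.2 ⟨?_, ?_⟩
    · have := (D.dd_diff.continuous.norm.tendsto D.rho)
      rw [D.dd_rho, norm_zero] at this
      exact this.mono_left nhdsWithin_le_nhds
    · filter_upwards [D.dd_eventually D.rho] with z hz
      exact norm_pos_iff.2 hz
  have h3 : Tendsto (fun s => ‖D.A s‖ * ‖D.dd s‖⁻¹) (𝓝[≠] D.rho) atTop :=
    h1.pos_mul_atTop (norm_pos_iff.2 D.A_rho) (tendsto_inv_nhdsGT_zero.comp h2)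
  refine h3.congr' ?_
  have e1 : ∀ᶠ z in 𝓝[≠] D.rho, z ≠ 1 := nhdsWithin_le_nhds (isOpen_ne.mem_nhds D.rho_ne_one)
  have e2 : ∀ᶠ z in 𝓝[≠] D.rho, D.Y z ≠ 0 :=
    nhdsWithin_le_nhds (D.hYd.continuous.continuousAt.eventually_ne D.hYρ)
  filter_upwards [e1, e2, D.dd_eventually D.rho] with z z1 z2 z3
  rw [D.quot_eq z1 z3 z2, norm_div, div_eq_mul_inv]

theorem eltP (D : Dt) : EltP := by
  refine ⟨ak D.m D.β D.k, 2 * D.lam + D.k, D.k, D.G, D.rho, D.cls, D.cont, D.G_one_ne, ?_, ?_, D.rho_ne_one,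
    D.tend⟩
  · have := D.hkd
    unfold lam
    linarith
  · unfold rho
    simp

end Dt

/-- TASK HW -/
theorem taskHW : TaskHW := by
  intro hE hG2 hHC hHG hHF hHZ
  obtain ⟨γ, hγ, hz⟩ := hE
  obtain ⟨v, Z, Y, hv, hZd, hYd, hZ, hZ1, hZY, hYρ, hZg, hYg⟩ := hHZ γ hγ hz
  obtain ⟨m, hodd, hm2, hcore⟩ := hHC
  set N : ℕ := (2 * m + 2) * v with hN
  obtain ⟨c, C, β, α, hc, hC, hβ, hα, hsum, hrel⟩ := hcore γ N hγ
  have hm : 1 ≤ m := hodd.pos
  have hl := lam_pos m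
  have hl1 := lam_ge m
  have hL : 0 < lamOf m * γ := mul_pos hl hγ
  obtain ⟨P, R, hPN, hPR⟩ := hHG m hodd N (lamOf m * γ)
  have hrel2 := hPR α (uu c (lamOf m)) hsum (uu_zero hl) (fun n hn => uu_pos hc hn) C hrel
  obtain ⟨Λ, hΛd, hΛfe, hΛc, hΛs, hΛg⟩ := hHF c (lamOf m) m hc (by linarith) hm N P R (lamOf m * γ) C hL
    (fun n => α n * uu c (lamOf m) n ^ (2 * m + 1))
    (by rw [uu_zero hl]; simp)
    (by
      refine Summable.of_nonneg_of_le (fun n => by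
        apply mul_nonneg (abs_nonneg _)
        apply Real.rpow_nonneg
        rcases Nat.eq_zero_or_pos n with h | h
        · rw [h, uu_zero hl]
        · exact (uu_pos hc h).le) (fun n => ?_) hsum
      rcases Nat.eq_zero_or_pos n with h | h
      · subst h
        rw [uu_zero hl]
        simp
      · have hu := uu_pos (lam := lamOf m) hc h
        rw [abs_mul, abs_of_pos (pow_pos hu _), mul_assoc, ← Real.rpow_natCast,
          ← Real.rpow_add hu]
        have : ((2 * m + 1 : ℕ) : ℝ) + -(2 * (m : ℝ) + 1) = 0 := by push_cast; ring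
        rw [this, Real.rpow_zero, mul_one])
    (by
      intro t ht
      exact hrel2 t ht)
  let D : Dt :=
    { m := m
      N := N
      v := v
      k := 4 * m + 5
      c := c
      γ := γ
      C := C
      P := P
      R := R
      β := β
      α := α
      Λ := Λ
      Z := Z
      Y := Y
      hv := hv
      hk2 := by omega
      hkv := by rw [hN]; ring
      hkd := by
        unfold lamOf
        push_cast
        linarith
      hc := hc
      hγ := hγ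
      hC := hC.ne'
      hPN := by rw [hPN]; exact hG2 m _ hodd
      hβ := hβ
      hα := hα
      hsum := hsum
      hΛd := hΛd
      hΛfe := hΛfe
      hΛc := hΛc
      hΛs := hΛs
      hΛg := hΛg
      hZd := hZd
      hYd := hYd
      hZ := hZ
      hZ1 := hZ1
      hZY := hZY
      hYρ := hYρ
      hZg := hZg
      hYg := hYg }
  exact D.eltP

end Pool.Agent.H600R3.PO
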