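import Mathlib
import Pool.Agent.H180R3.PO.Stmts
import Pool.Agent.H600R3.PO.Tasks

/-!
# POLEORDER: `PoleLow` and the final deduction from the tasks
-/

set_option autoImplicit false

namespace Pool.Agent.H600R3.PO

open Pool.Agent.H336R4.PF Pool.Agent.H180R3.PO

theorem poleLow (hSTIR : TaskSTIR) (hPG : TaskPG) (hST : TaskST) (hMB : TaskMB) (hLIM : TaskLIM)
    (hVC : TaskVC) (hT1 : TaskT1) (hT2 : TaskT2) (hFEX : TaskFEX) (hSG : StripGrowth) : PoleLow := by
  intro a d ha hd1 hd2 G hG h1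
  obtain ⟨ha1, hram, ⟨m, G₀, hG₀, Q, k, lam, μ, ω, hQ, hFE₀, hdd⟩, hE⟩ := ha
  have hFE : FE 1 G Q k lam μ ω := by
    refine FE_congr hFE₀ fun s hs => ?_
    have hs1 : s - 1 ≠ 0 := sub_ne_zero.2 hs
    have := Cont.mul_eq hG₀ hG s
    rw [div_eq_div_iff (pow_ne_zero _ hs1) (pow_ne_zero _ hs1)]
    exact this
  have hpoly : PolyGrowth G := hPG hSTIR hFEX hSG a hram 1 G hG Q k lam μ ω hQ hFE
  have has : ∀ η : ℝ, 0 < η → η < 1 → ∃ (K : ℂ) (c A C T : ℝ), Asym a G d η K c A C T := by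
    intro η h0 h1
    rw [hdd]
    exact hST hSTIR hFEX a hram G hG Q k lam μ ω hQ hFE η h0 h1
  rcases eq_or_lt_of_le hd1 with h | h
  · subst h
    exact taskAR a ha1 hram hE (hT2 hLIM hMB a ha1 hram G hG hpoly has h1)
  · exact absurd (hT1 hVC hLIM hMB a hram G hG hpoly d h hd2 has) h1

/-- a primitive element violating the upper half of Selberg's asymptotic, from `PoleLow` and the special
element -/
theorem final (hGap : DegGap) (hAdd : DegAdd) (hLow : PoleLow) (hElt : EltP) :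
    ∃ a : ℕ → ℂ, Prim a ∧ ¬ Q1up a := taskFIN hGap hAdd hLow taskCS hElt

end Pool.Agent.H600R3.PO
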