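import Mathlib
import Pool.Agent.H600R3.PO.PoleLow
import Pool.Agent.H600R3.PO.HW3
import Pool.Agent.H475R3.PO.MB
import Pool.Agent.H475R3.PO.PG
import Pool.Agent.H475R3.PO.ST2
import Pool.Agent.H5R3.TaskHC
import Pool.Agent.H5R3.TaskVCT1
import Pool.Agent.H180R3.PO.LIM
import Pool.Agent.H180R3.PO.T2
import Pool.Agent.H990R4.PO.HZ
import Pool.Agent.H82R3.PO.HG
import Pool.Agent.H886R3.TaskHF
import Pool.Agent.H336R4.PF.Final
import Pool.Agent.H902R3.PZ.TaskE
import Pool.Agent.H600R3.TaskPZG2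

/-!
# POLEORDER: assembly
-/

set_option autoImplicit false

namespace Pool.Agent.H600R3.PO

open Pool.Agent.H336R4.PF Pool.Agent.H180R3.PO

theorem poleLow' : PoleLow :=
  poleLow Pool.Agent.H475R3.PO.taskSTIR Pool.Agent.H475R3.PO.taskPG Pool.Agent.H475R3.PO.taskST2
    Pool.Agent.H475R3.PO.taskMB Pool.Agent.H180R3.PO.taskLIM Pool.Agent.H5R3.PO.taskVC
    Pool.Agent.H5R3.PO.taskT1 Pool.Agent.H180R3.PO.taskT2 fex stripGrowth

theorem eltP' : EltP :=
  taskHW Pool.Agent.H902R3.PZ.taskE Pool.Agent.H600R3.PZG2.taskG2 Pool.Agent.H5R3.HC.taskHC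
    Pool.Agent.H82R3.POHG.taskHG Pool.Agent.H886R3.HF.taskHF Pool.Agent.H990R4.PO.taskHZ

/-- a primitive element of the Selberg class violating the upper half of Selberg's asymptotic -/
theorem main : ∃ a : ℕ → ℂ, Prim a ∧ ¬ Q1up a := final degGap degAdd poleLow' eltP'

end Pool.Agent.H600R3.PO
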